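import Pool.Agent.V7H82.ZT.Comp

/-!
# Stable valuation rings, and simple extensions
-/

set_option autoImplicit false

universe u v

namespace Pool.Agent.V7H82.ZT

open IsLocalRing Polynomial Pool.Agent.W418.LU2 Pool.Agent.TH188.QS Pool.Agent.V7H82.ZR
  Pool.Agent.V7H82.ZS

/-- Density in the algebraic closure gives approximate roots. -/
theorem apx_of_dense {K : Type u} [Field K] {M : Type u} [Field M] [Algebra K M] [IsAlgClosed M]
    {V : ValuationSubring K} {W : ValuationSubring M} (hW : W.comap (algebraMap K M) = V)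
    (h : ∀ θ c : M, c ≠ 0 → IsAlgebraic K θ → IsAlgebraic K c →
      ∃ y : K, W.valuation (θ - algebraMap K M y) < W.valuation c) : Apx V := by
  classical
  intro g hg hg1 hgV c hc
  wlog hcV : c ∈ V generalizing c
  · obtain ⟨y, hyV, hy⟩ := this 1 one_ne_zero V.one_mem
    refine ⟨y, hyV, ?_⟩
    have hci : V.valuation c⁻¹ ≤ 1 :=
      (V.valuation_le_one_iff _).2 ((V.mem_or_inv_mem c).resolve_left hcV)
    rw [div_one] at hy
    rw [div_eq_mul_inv, map_mul]
    calc _ ≤ V.valuation (g.eval y) * 1 := mul_le_mul_right hci _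
      _ < 1 := by rw [mul_one]; exact hy
  have hgm : (g.map (algebraMap K M)).Monic := hg.map _
  have hsp : (g.map (algebraMap K M)).Splits := IsAlgClosed.splits _
  have hint : ∀ r ∈ (g.map (algebraMap K M)).roots, r ∈ W := by
    intro r hr
    rw [mem_roots hgm.ne_zero, IsRoot.def] at hr
    have hsub : ((g.map (algebraMap K M)).coeffs : Set M) ⊆ W.toSubring := by
      intro c hc
      obtain ⟨i, -, rfl⟩ := mem_coeffs_iff.1 hc
      rw [coeff_map]
      have h2 := hgV i
      rw [← hW] at h2
      exact h2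
    have h1 : IsIntegral W r := by
      refine ⟨(g.map (algebraMap K M)).toSubring W.toSubring hsub,
        (monic_toSubring _ _ _).2 hgm, ?_⟩
      have h3 := map_toSubring (g.map (algebraMap K M)) W.toSubring hsub
      rw [← h3, eval_map] at hr
      exact hr
    obtain ⟨y, hy⟩ := IsIntegrallyClosed.isIntegral_iff.1 h1
    rw [← hy]
    exact y.2
  obtain ⟨θ, hθ⟩ : ∃ θ, θ ∈ (g.map (algebraMap K M)).roots := by
    apply Multiset.exists_mem_of_ne_zero
    intro h0
    have h1 : (g.map (algebraMap K M)).roots.card = g.natDegree := by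
      rw [← hsp.natDegree_eq_card_roots, hg.natDegree_map]
    rw [h0, Multiset.card_zero] at h1
    omega
  have hθa : IsAlgebraic K θ := by
    refine ⟨g, hg.ne_zero, ?_⟩
    rw [mem_roots hgm.ne_zero, IsRoot.def, eval_map] at hθ
    exact hθ
  obtain ⟨y, hy⟩ := h θ (algebraMap K M c) ((_root_.map_ne_zero _).2 hc) hθa
    (isAlgebraic_algebraMap c)
  have hc1 : W.valuation (algebraMap K M c) ≤ 1 := by
    rw [W.valuation_le_one_iff]
    rw [← hW] at hcV
    exact hcV
  have hyW : algebraMap K M y ∈ W := by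
    have h1 : algebraMap K M y = θ - (θ - algebraMap K M y) := by ring
    rw [h1]
    refine sub_mem (hint θ hθ) ?_
    rw [← W.valuation_le_one_iff]
    exact (hy.trans_le hc1).le
  refine ⟨y, ?_, ?_⟩
  · rw [← hW]
    exact hyW
  · rw [lt_iff hW, map_div₀, map_div₀,
      div_lt_one₀ (zero_lt_iff.2 ((_root_.map_ne_zero _).2 ((_root_.map_ne_zero _).2 hc)))]
    have h1 : algebraMap K M (g.eval y) =
        ((g.map (algebraMap K M)).roots.map fun a => algebraMap K M y - a).prod := by
      rw [← hsp.eval_eq_prod_roots_of_monic hgm, eval_map, eval₂_at_apply]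
    rw [h1, ← Multiset.cons_erase hθ, Multiset.map_cons, Multiset.prod_cons, map_mul]
    have h2 : W.valuation (((((g.map (algebraMap K M)).roots.erase θ).map
        fun a => algebraMap K M y - a)).prod) ≤ 1 := by
      rw [W.valuation_le_one_iff]
      refine multiset_prod_mem _ fun a ha => ?_
      obtain ⟨r, hr, rfl⟩ := Multiset.mem_map.1 ha
      exact sub_mem hyW (hint r (Multiset.mem_of_mem_erase hr))
    have h3 : W.valuation (algebraMap K M y - θ) < W.valuation (algebraMap K M c) := by
      rw [← neg_sub, Valuation.map_neg]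
      exact hy
    calc _ ≤ W.valuation (algebraMap K M y - θ) * 1 := mul_le_mul_right h2 _
      _ < _ := by rw [mul_one]; exact h3

open Pool.Agent.R187.CT in
/-- Goodness of algebraic extensions follows from the one of finite extensions. -/
theorem good_of_fin {R : Type u} [CommRing R] (hR : HJ R) {E : Type u} [Field E] {ρ : R →+* E}
    (hEf : ∃ S : Set E, S.Finite ∧ ∀ z, Fr (R187.CT.rg ρ S) z) {V : ValuationSubring E}
    (hV : ∀ (L : Type u) [Field L] [Algebra E L] [FiniteDimensional E L]
      (V' : ValuationSubring L), V'.comap (algebraMap E L) = V → ∀ T : Set L, T.Finite →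
        R187.CT.rg ((algebraMap E L).comp ρ) T ≤ V'.toSubring →
          (∀ z, Fr (R187.CT.rg ((algebraMap E L).comp ρ) T) z) →
            LogUnif V' (R187.CT.rg ((algebraMap E L).comp ρ) T))
    {L : Type u} [Field L] [Algebra E L] [Algebra.IsAlgebraic E L] (V' : ValuationSubring L)
    (hV' : V'.comap (algebraMap E L) = V) : Good ((algebraMap E L).comp ρ) V' := by
  classical
  obtain ⟨S, hS, hSE⟩ := hEf
  refine ⟨(algebraMap E L) '' S, hS.image _, fun T hT hTV hTF => ?_⟩
  let F : IntermediateField E L := IntermediateField.adjoin E T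
  have hFin : FiniteDimensional E F := by
    have hTf : Finite T := hT
    exact IntermediateField.finiteDimensional_adjoin fun x _ => Algebra.IsIntegral.isIntegral x
  let j : F →+* L := algebraMap F L
  let T' : Set F := j ⁻¹' T
  have hT' : T'.Finite := hT.preimage j.injective.injOn
  have hjT : j '' T' = T := by
    rw [Set.image_preimage_eq_inter_range, Set.inter_eq_left]
    intro t ht
    exact ⟨⟨t, IntermediateField.subset_adjoin E T ht⟩, rfl⟩
  have hmap : (R187.CT.rg ((algebraMap E F).comp ρ) T').map j =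
      R187.CT.rg ((algebraMap E L).comp ρ) T := by
    rw [R187.CT.rg, R187.CT.rg, RingHom.map_closure, Set.image_union, hjT]
    congr 2
    ext z
    constructor
    · rintro ⟨_, ⟨a, rfl⟩, rfl⟩
      exact ⟨a, rfl⟩
    · rintro ⟨a, rfl⟩
      exact ⟨_, ⟨a, rfl⟩, rfl⟩
  have hle : R187.CT.rg ((algebraMap E F).comp ρ) T' ≤ (V'.comap j).toSubring := by
    intro z hz
    exact hTV (by rw [← hmap]; exact ⟨z, hz, rfl⟩)
  -- the fraction field
  have hfrd : ∀ z : F, Fr (R187.CT.rg ((algebraMap E L).comp ρ) T) (j z) →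
      Fr (R187.CT.rg ((algebraMap E F).comp ρ) T') z := by
    rintro z ⟨a, ha, b, hb, hb0, hz⟩
    rw [← hmap] at ha hb
    obtain ⟨a', ha', rfl⟩ := ha
    obtain ⟨b', hb', rfl⟩ := hb
    refine ⟨a', ha', b', hb', (_root_.map_ne_zero j).1 hb0, j.injective ?_⟩
    rw [hz, map_mul, map_inv₀]
  have hfrE : ∀ e : E, Fr (R187.CT.rg ((algebraMap E L).comp ρ) T) (algebraMap E L e) := by
    intro e
    have h1 : Fr (R187.CT.rg ((algebraMap E L).comp ρ) ((algebraMap E L) '' S))
        (algebraMap E L e) := by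
      obtain ⟨a, ha, b, hb, hb0, rfl⟩ := hSE e
      have h2 : ∀ a ∈ R187.CT.rg ρ S, algebraMap E L a ∈
          R187.CT.rg ((algebraMap E L).comp ρ) ((algebraMap E L) '' S) := by
        intro a ha
        have h3 : algebraMap E L a ∈ (R187.CT.rg ρ S).map (algebraMap E L) := ⟨a, ha, rfl⟩
        rw [R187.CT.rg, RingHom.map_closure, Set.image_union] at h3
        refine Subring.closure_mono (Set.union_subset_union_left _ ?_) h3
        rintro _ ⟨_, ⟨a, rfl⟩, rfl⟩
        exact ⟨a, rfl⟩
      exact ⟨_, h2 a ha, _, h2 b hb, (_root_.map_ne_zero _).2 hb0, by rw [map_mul, map_inv₀]⟩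
    exact fr_closure _ (fun a ha => Subring.subset_closure (Or.inl ha)) hTF h1
  have hfr : ∀ z : F, Fr (R187.CT.rg ((algebraMap E F).comp ρ) T') z := by
    intro z
    apply hfrd
    have h1 : F ≤ { fr (R187.CT.rg ((algebraMap E L).comp ρ) T) with
        algebraMap_mem' := fun e => fr_iff.1 (hfrE e) : IntermediateField E L } := by
      rw [IntermediateField.adjoin_le_iff]
      intro t ht
      exact fr_iff.1 (Fr.of_mem (Subring.subset_closure (Or.inr ht)))
    exact fr_iff.2 (h1 z.2)
  have hnoe : IsNoetherianRing (R187.CT.rg ((algebraMap E F).comp ρ) T') :=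
    R187.CT.noe_rg hR _ hT'
  have hLU := hV F (V'.comap j) (by rw [ValuationSubring.comap_comap, ← hV']; rfl) T' hT' hle hfr
  have hGP : GP (V'.comap j) (R187.CT.rg ((algebraMap E F).comp ρ) T') :=
    gp_of_logUnif ⟨hle, hfr⟩ hLU
  intro G H hG hH hGf hHf
  have hjF : ∀ z : L, Fr (R187.CT.rg ((algebraMap E L).comp ρ) T) z → ∃ w : F, j w = z := by
    rintro _ ⟨a, ha, b, hb, -, rfl⟩
    rw [← hmap] at ha hb
    obtain ⟨a', -, rfl⟩ := ha
    obtain ⟨b', -, rfl⟩ := hb
    exact ⟨a' * b'⁻¹, by rw [map_mul, map_inv₀]⟩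
  have hjG : j '' (j ⁻¹' G) = G := by
    rw [Set.image_preimage_eq_inter_range, Set.inter_eq_left]
    exact fun t ht => hjF t (hGf t ht).2
  have hjH : j '' (j ⁻¹' H) = H := by
    rw [Set.image_preimage_eq_inter_range, Set.inter_eq_left]
    exact fun t ht => hjF t (hHf t ht).2
  have h1 : DA (V'.comap j) (R187.CT.rg ((algebraMap E F).comp ρ) T') (j ⁻¹' G) (j ⁻¹' H) :=
    hGP _ _ (hG.preimage j.injective.injOn) (hH.preimage j.injective.injOn)
      (fun h hh => ⟨fun h0 => (hGf _ hh).1 (by rw [h0, map_zero]), hfr h⟩)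
      (fun h hh => ⟨(hHf _ hh).1, hfr h⟩)
  have h2 := h1.map
  rw [hmap, hjG, hjH] at h2
  exact h2

end Pool.Agent.V7H82.ZT
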