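import Pool.Agent.V7H82.ZT.Fin

/-!
# The valuations of a simple extension which are composite with a place over the ground field
-/

set_option autoImplicit false

universe u v

namespace Pool.Agent.V7H82.ZT

open IsLocalRing Polynomial Pool.Agent.W418.LU2 Pool.Agent.TH188.QS Pool.Agent.V7H82.ZR
  Pool.Agent.V7H82.ZS

variable {E : Type u} [Field E] {K : Type u} [Field K] [Algebra E K]

lemma adjoin_inv_top {t : K} (hK : IntermediateField.adjoin E {t} = ⊤) :
    IntermediateField.adjoin E {t⁻¹} = ⊤ := by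
  rw [eq_top_iff, ← hK, IntermediateField.adjoin_le_iff]
  intro x hx
  rw [Set.mem_singleton_iff.1 hx]
  have h1 : t⁻¹ ∈ IntermediateField.adjoin E {t⁻¹} := IntermediateField.subset_adjoin E _ rfl
  have h2 := (IntermediateField.adjoin E {t⁻¹}).inv_mem h1
  rwa [inv_inv] at h2

/-- The valuation rings of a simple extension over the ground field. -/
theorem dvr_simple {V₁ : ValuationSubring K} (hE : ∀ c : E, algebraMap E K c ∈ V₁) {t : K}
    (hK : IntermediateField.adjoin E {t} = ⊤) : V₁ = ⊤ ∨ IsDiscreteValuationRing V₁ := by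
  wlog ht : t ∈ V₁ generalizing t
  · exact this (adjoin_inv_top hK) ((V₁.mem_or_inv_mem t).resolve_left ht)
  let f : E[X] →+* K := (aeval t : E[X] →ₐ[E] K)
  have hmem : ∀ p : E[X], f p ∈ V₁ := by
    intro p
    change aeval t p ∈ V₁
    rw [aeval_eq_sum_range]
    refine sum_mem fun i _ => ?_
    rw [Algebra.smul_def]
    exact V₁.mul_mem _ _ (hE _) (pow_mem ht i)
  have hfr : ∀ z : K, Fr f.range z := by
    intro z
    have hz : z ∈ IntermediateField.adjoin E {t} := by
      rw [hK]
      trivial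
    obtain ⟨r, s, hrs⟩ := (IntermediateField.mem_adjoin_simple_iff E z).1 hz
    by_cases hs : aeval t s = 0
    · rw [hs, div_zero] at hrs
      rw [hrs]
      exact ⟨0, f.range.zero_mem, 1, f.range.one_mem, one_ne_zero, by rw [zero_mul]⟩
    · exact ⟨aeval t r, ⟨r, rfl⟩, aeval t s, ⟨s, rfl⟩, hs, by rw [hrs, div_eq_mul_inv]⟩
  have hfrac : IsFractionRing f.range K := isFractionRing_of_fr hfr
  have hnoe : IsNoetherianRing f.range :=
    isNoetherianRing_of_surjective _ _ f.rangeRestrict f.rangeRestrict_surjective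
  have hdim : Ring.KrullDimLE 1 f.range := by
    rw [Ring.krullDimLE_iff]
    refine (ringKrullDim_le_of_surjective f.rangeRestrict f.rangeRestrict_surjective).trans ?_
    exact Ring.krullDimLE_iff.1 (inferInstance : Ring.KrullDimLE 1 E[X])
  refine dvr_of_dim (R := f.range) (E := K) V₁ ?_
  rintro ⟨_, p, rfl⟩
  exact hmem p

/-- The residue field is algebraic. -/
theorem residue_alg {V₁ : ValuationSubring K} (hE : ∀ c : E, algebraMap E K c ∈ V₁) {t : K}
    (hK : IntermediateField.adjoin E {t} = ⊤) (hne : V₁ ≠ ⊤) (x : ResidueField V₁) :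
    ∃ h : E[X], h ≠ 0 ∧ eval₂ ((residue V₁).comp
      ((algebraMap E K).codRestrict V₁.toSubring hE)) x h = 0 := by
  classical
  by_contra hcon
  push Not at hcon
  obtain ⟨z, rfl⟩ := residue_surjective x
  let φ : E →+* V₁ := (algebraMap E K).codRestrict V₁.toSubring hE
  have hev : ∀ h : E[X], ((eval₂ φ z h : V₁) : K) = aeval (z : K) h := by
    intro h
    exact hom_eval₂ h φ V₁.subtype z
  have hu : ∀ h : E[X], h ≠ 0 → aeval (z : K) h ≠ 0 ∧ (aeval (z : K) h)⁻¹ ∈ V₁ := by
    intro h h0
    have h1 := hcon h h0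
    rw [← hom_eval₂, Ne, residue_eq_zero_iff, mem_maximalIdeal, mem_nonunits_iff, not_not] at h1
    obtain ⟨d, hd⟩ := isUnit_iff_exists_inv.1 h1
    have h2 : aeval (z : K) h * (d : K) = 1 := by
      rw [← hev]
      exact congrArg Subtype.val hd
    refine ⟨left_ne_zero_of_mul_eq_one h2, ?_⟩
    rw [← eq_inv_of_mul_eq_one_right h2]
    exact d.2
  let F : IntermediateField E K := IntermediateField.adjoin E {(z : K)}
  have hzF : (z : K) ∈ F := IntermediateField.subset_adjoin E _ rfl
  have hFV : ∀ y : F, algebraMap F K y ∈ V₁ := by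
    rintro ⟨y, hy⟩
    obtain ⟨r, s, hrs⟩ := (IntermediateField.mem_adjoin_simple_iff E y).1 hy
    change y ∈ V₁
    rw [hrs]
    by_cases hs : s = 0
    · rw [hs, map_zero, div_zero]
      exact V₁.zero_mem
    · rw [div_eq_mul_inv]
      refine V₁.mul_mem _ _ ?_ (hu s hs).2
      rw [← hev]
      exact (eval₂ φ z r).2
  have hz0 : (z : K) ≠ 0 := by
    have h1 := (hu X X_ne_zero).1
    rwa [aeval_X] at h1
  -- `t` is algebraic over `F`
  have hzt : (z : K) ∈ IntermediateField.adjoin E {t} := by
    rw [hK]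
    trivial
  obtain ⟨f, g, hfg⟩ := (IntermediateField.mem_adjoin_simple_iff E (z : K)).1 hzt
  have hgt : aeval t g ≠ 0 := by
    intro h
    rw [h, div_zero] at hfg
    exact hz0 hfg
  have hg0 : g ≠ 0 := by
    rintro rfl
    exact hgt (map_zero _)
  have htF : IsAlgebraic F t := by
    refine ⟨f.map (algebraMap E F) - C ⟨(z : K), hzF⟩ * g.map (algebraMap E F), ?_, ?_⟩
    · intro hP
      obtain ⟨i, hi⟩ : ∃ i, g.coeff i ≠ 0 := by
        by_contra h
        push Not at h
        exact hg0 (by ext i; rw [h i, coeff_zero])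
      have h1 := congrArg (fun q => ((q.coeff i : F) : K)) (sub_eq_zero.1 hP)
      simp only [coeff_map, coeff_C_mul] at h1
      have h2 : algebraMap E K (f.coeff i) = (z : K) * algebraMap E K (g.coeff i) := h1
      have h3 : (z : K) = algebraMap E K (f.coeff i / g.coeff i) := by
        rw [map_div₀, h2, mul_div_assoc, div_self ((_root_.map_ne_zero _).2 hi), mul_one]
      refine (hu (X - C (f.coeff i / g.coeff i)) (X_sub_C_ne_zero _)).1 ?_
      rw [map_sub, aeval_X, aeval_C, h3, sub_self]
    · rw [map_sub, map_mul, aeval_map_algebraMap, aeval_map_algebraMap, aeval_C]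
      change aeval t f - (z : K) * aeval t g = 0
      rw [hfg, div_mul_cancel₀ _ hgt, sub_self]
  have hAalg : Algebra.IsAlgebraic F (IntermediateField.adjoin F {t}) :=
    IntermediateField.isAlgebraic_adjoin_simple htF.isIntegral
  apply hne
  ext y
  refine ⟨fun _ => trivial, fun _ => ?_⟩
  have hy : y ∈ IntermediateField.adjoin F {t} := by
    have h1 : IntermediateField.adjoin E {t} ≤
        (IntermediateField.adjoin F {t}).restrictScalars E := by
      rw [IntermediateField.adjoin_le_iff]
      intro x hx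
      rw [Set.mem_singleton_iff.1 hx]
      exact IntermediateField.subset_adjoin F _ rfl
    rw [hK] at h1
    exact h1 (IntermediateField.mem_top (x := y))
  have hyi : IsIntegral F y :=
    (Algebra.IsIntegral.isIntegral (R := F)
      (⟨y, hy⟩ : IntermediateField.adjoin F {t})).map (IntermediateField.adjoin F {t}).val
  let ψ : F →+* V₁ := (algebraMap F K).codRestrict V₁.toSubring hFV
  have hyV : IsIntegral V₁ y := by
    obtain ⟨p, hp, hpx⟩ := hyi
    refine ⟨p.map ψ, hp.map _, ?_⟩
    rw [eval₂_map]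
    exact hpx
  obtain ⟨w, hw⟩ := IsIntegrallyClosed.isIntegral_iff.1 hyV
  rw [← hw]
  exact w.2

/-- The ring generated by the valuation ring and the ground field. -/
def coarse (E : Type u) [Field E] {K : Type u} [Field K] [Algebra E K] (W : ValuationSubring K) :
    ValuationSubring K where
  carrier := {z | ∃ c : E, c ≠ 0 ∧ W.valuation z ≤ W.valuation (algebraMap E K c)}
  mul_mem' := by
    rintro a b ⟨c, hc, hac⟩ ⟨d, hd, hbd⟩
    refine ⟨c * d, mul_ne_zero hc hd, ?_⟩
    rw [map_mul, map_mul, map_mul]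
    exact mul_le_mul' hac hbd
  one_mem' := ⟨1, one_ne_zero, by rw [map_one (algebraMap E K)]⟩
  add_mem' := by
    rintro a b ⟨c, hc, hac⟩ ⟨d, hd, hbd⟩
    rcases le_total (W.valuation (algebraMap E K c)) (W.valuation (algebraMap E K d)) with h | h
    · exact ⟨d, hd, (W.valuation.map_add _ _).trans (max_le (hac.trans h) hbd)⟩
    · exact ⟨c, hc, (W.valuation.map_add _ _).trans (max_le hac (hbd.trans h))⟩
  zero_mem' := ⟨1, one_ne_zero, by rw [map_zero]; exact zero_le⟩
  neg_mem' := by
    rintro a ⟨c, hc, hac⟩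
    exact ⟨c, hc, by rw [Valuation.map_neg]; exact hac⟩
  mem_or_inv_mem' := by
    intro z
    have h1 : ∀ z ∈ W, ∃ c : E, c ≠ 0 ∧ W.valuation z ≤ W.valuation (algebraMap E K c) :=
      fun z hz => ⟨1, one_ne_zero, by
        rw [map_one, map_one]
        exact (W.valuation_le_one_iff _).2 hz⟩
    exact (W.mem_or_inv_mem z).imp (h1 z) (h1 z⁻¹)

lemma le_coarse (W : ValuationSubring K) {z : K} (hz : z ∈ W) : z ∈ coarse E W :=
  ⟨1, one_ne_zero, by
    rw [map_one, map_one]
    exact (W.valuation_le_one_iff _).2 hz⟩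

lemma alg_coarse (W : ValuationSubring K) (c : E) : algebraMap E K c ∈ coarse E W := by
  by_cases hc : c = 0
  · rw [hc, map_zero]
    exact (coarse E W).zero_mem
  · exact ⟨c, hc, le_rfl⟩

/-- The induced valuation ring of the residue field. -/
def resid {W V₁ : ValuationSubring K} (h : ∀ z ∈ W, z ∈ V₁) :
    ValuationSubring (ResidueField V₁) where
  carrier := {x | ∃ (z : K) (hz : z ∈ W), residue V₁ ⟨z, h z hz⟩ = x}
  mul_mem' := by
    rintro _ _ ⟨a, ha, rfl⟩ ⟨b, hb, rfl⟩
    exact ⟨a * b, W.mul_mem _ _ ha hb, map_mul (residue V₁) ⟨a, h a ha⟩ ⟨b, h b hb⟩⟩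
  one_mem' := ⟨1, W.one_mem, map_one (residue V₁)⟩
  add_mem' := by
    rintro _ _ ⟨a, ha, rfl⟩ ⟨b, hb, rfl⟩
    exact ⟨a + b, W.add_mem _ _ ha hb, map_add (residue V₁) ⟨a, h a ha⟩ ⟨b, h b hb⟩⟩
  zero_mem' := ⟨0, W.zero_mem, map_zero (residue V₁)⟩
  neg_mem' := by
    rintro _ ⟨a, ha, rfl⟩
    exact ⟨-a, W.neg_mem _ ha, map_neg (residue V₁) ⟨a, h a ha⟩⟩
  mem_or_inv_mem' := by
    intro x
    obtain ⟨⟨z, hz⟩, rfl⟩ := residue_surjective x
    rcases W.mem_or_inv_mem z with hzW | hzW
    · exact Or.inl ⟨z, hzW, rfl⟩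
    · by_cases hz0 : z = 0
      · subst hz0
        exact Or.inl ⟨0, W.zero_mem, rfl⟩
      · refine Or.inr ⟨z⁻¹, hzW, ?_⟩
        apply eq_inv_of_mul_eq_one_left
        have h1 : (⟨z⁻¹, h _ hzW⟩ * ⟨z, hz⟩ : V₁) = 1 := Subtype.ext (inv_mul_cancel₀ hz0)
        rw [← map_mul, h1, map_one]

lemma cmp_resid {W V₁ : ValuationSubring K} (h : ∀ z ∈ W, z ∈ V₁) : Cmp W V₁ (resid h) := by
  intro z
  constructor
  · exact fun hz => ⟨h z hz, z, hz, rfl⟩
  · rintro ⟨hz, w, hw, hwz⟩
    have h1 : (⟨z, hz⟩ - ⟨w, h w hw⟩ : V₁) ∈ maximalIdeal V₁ := by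
      rw [← residue_eq_zero_iff, map_sub, hwz, sub_self]
    have h2 : z - w ∈ W := by
      by_contra h3
      have h4 : (z - w)⁻¹ ∈ W := (W.mem_or_inv_mem _).resolve_left h3
      rw [mem_maximalIdeal, mem_nonunits_iff] at h1
      apply h1
      refine IsUnit.of_mul_eq_one ⟨(z - w)⁻¹, h _ h4⟩ (Subtype.ext ?_)
      refine mul_inv_cancel₀ ?_
      intro h5
      change z - w = 0 at h5
      rw [h5] at h3
      exact h3 W.zero_mem
    have h3 : z = (z - w) + w := by ring
    rw [h3]
    exact W.add_mem _ _ h2 hw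

lemma join_top {t : K} (hK : IntermediateField.adjoin E {t} = ⊤) :
    (algebraMap E K).fieldRange ⊔ Subfield.closure {t} = ⊤ := by
  rw [eq_top_iff]
  intro z _
  have hz : z ∈ IntermediateField.adjoin E {t} := by
    rw [hK]
    trivial
  obtain ⟨r, s, hrs⟩ := (IntermediateField.mem_adjoin_simple_iff E z).1 hz
  have ht : t ∈ (algebraMap E K).fieldRange ⊔ Subfield.closure {t} :=
    (le_sup_right : Subfield.closure {t} ≤ _) (Subfield.subset_closure rfl)
  have hc : ∀ c : E, algebraMap E K c ∈ (algebraMap E K).fieldRange ⊔ Subfield.closure {t} :=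
    fun c => (le_sup_left : (algebraMap E K).fieldRange ≤ _) ⟨c, rfl⟩
  have h1 : ∀ p : E[X], aeval t p ∈ (algebraMap E K).fieldRange ⊔ Subfield.closure {t} := by
    intro p
    rw [aeval_eq_sum_range]
    refine sum_mem fun i _ => ?_
    rw [Algebra.smul_def]
    exact mul_mem (hc _) (pow_mem ht i)
  rw [hrs]
  exact div_mem (h1 r) (h1 s)

open Pool.Agent.R187.CT in
/-- **All valuations of a simple extension** of a field with approximate roots all of whose
algebraic extensions are good. -/
theorem good_simple {R : Type u} [CommRing R] (hR : HJ R) {ρ : R →+* E}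
    (hEf : ∃ S : Set E, S.Finite ∧ ∀ z, Fr (R187.CT.rg ρ S) z) {V : ValuationSubring E}
    (hρ : ∀ a, ρ a ∈ V) (hA : Apx V)
    (hV : ∀ (L : Type u) [Field L] [Algebra E L] [Algebra.IsAlgebraic E L]
      (V' : ValuationSubring L), V'.comap (algebraMap E L) = V →
        Good ((algebraMap E L).comp ρ) V') {t : K}
    (hK : IntermediateField.adjoin E {t} = ⊤) (W : ValuationSubring K)
    (hW : W.comap (algebraMap E K) = V) : Good ((algebraMap E K).comp ρ) W := by
  by_cases ht : IsAlgebraic E t
  · have h1 : Algebra.IsAlgebraic E (IntermediateField.adjoin E {t}) :=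
      IntermediateField.isAlgebraic_adjoin_simple ht.isIntegral
    have h2 : Algebra.IsAlgebraic E K := by
      rw [hK] at h1
      exact ⟨fun x => by
        have h3 := h1.isAlgebraic (⟨x, IntermediateField.mem_top⟩ : (⊤ : IntermediateField E K))
        exact (isAlgebraic_algebraMap_iff
          (algebraMap (⊤ : IntermediateField E K) K).injective).2 h3⟩
    exact hV K W hW
  · by_cases hcof : ∀ z : K, z ≠ 0 → ∃ c : E, c ≠ 0 ∧
        W.valuation (algebraMap E K c) ≤ W.valuation z
    · subst hW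
      have h1 : Good ρ (W.comap (algebraMap E K)) := hV E (W.comap (algebraMap E K)) rfl
      exact good_line hR ρ W hρ hEf h1 hA hcof ht (join_top hK)
    · push Not at hcof
      obtain ⟨z₀, hz₀, hz⟩ := hcof
      have hne : coarse E W ≠ ⊤ := by
        intro h
        have h1 : z₀⁻¹ ∈ coarse E W := by
          rw [h]
          trivial
        obtain ⟨c, hc, hcz⟩ := h1
        have h2 := hz c⁻¹ (inv_ne_zero hc)
        rw [map_inv₀, map_inv₀] at h2
        rw [map_inv₀] at hcz
        have h3 : 0 < W.valuation (algebraMap E K c) :=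
          zero_lt_iff.2 ((_root_.map_ne_zero _).2 ((_root_.map_ne_zero _).2 hc))
        have h4 : 0 < W.valuation z₀ := zero_lt_iff.2 ((_root_.map_ne_zero _).2 hz₀)
        have h5 := (lt_inv_comm₀ h4 h3).1 h2
        exact absurd hcz (not_le.2 h5)
      have hdvr := (dvr_simple (V₁ := coarse E W) (alg_coarse W) hK).resolve_left hne
      have hρK : ∀ a, ((algebraMap E K).comp ρ) a ∈ (coarse E W).toSubring :=
        fun a => alg_coarse W (ρ a)
      refine good_comp hR ((algebraMap E K).comp ρ) hρK (cmp_resid fun z hz => le_coarse W hz)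
        (good_dv hR _ _ (Or.inl hdvr)) ?_
      let φ : E →+* ResidueField (coarse E W) := (residue (coarse E W)).comp
        ((algebraMap E K).codRestrict (coarse E W).toSubring (alg_coarse W))
      let _ : Algebra E (ResidueField (coarse E W)) := φ.toAlgebra
      have halg : Algebra.IsAlgebraic E (ResidueField (coarse E W)) :=
        ⟨fun x => residue_alg (alg_coarse W) hK hne x⟩
      have h1 := hV (ResidueField (coarse E W)) (resid (V₁ := coarse E W)
        fun z hz => le_coarse W hz) (by
          rw [← hW]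
          ext c
          have h2 := cmp_resid (W := W) (V₁ := coarse E W) (fun z hz => le_coarse W hz)
            (algebraMap E K c)
          constructor
          · intro h3
            exact h2.2 ⟨alg_coarse W c, h3⟩
          · intro h3
            obtain ⟨h4, h5⟩ := h2.1 h3
            exact h5)
      exact h1

end Pool.Agent.V7H82.ZT
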