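import Pool.Agent.V7H82.ZT.Dv

/-!
# Compactness: neighbourhoods of all extensions of a valuation ring
-/

set_option autoImplicit false

universe u v

namespace Pool.Agent.V7H82.ZT

open IsLocalRing Polynomial Pool.Agent.W418.LU2 Pool.Agent.TH188.QS Pool.Agent.V7H82.ZR
open scoped Topology

/-- The space of all valuation rings is compact. -/
theorem all_compact {M : Type u} [Field M] :
    @CompactSpace (ValuationSubring M) (pt fun (V : ValuationSubring M) (x : M) => x ∈ V) := by
  classical
  refine pt_compact fun F => ?_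
  have hall : ∀ {P : ValuationSubring M → Prop}, (∀ V, P V) → {V | P V} ∈ F := fun h =>
    Filter.univ_mem' h
  let W : ValuationSubring M :=
    { carrier := {x | {V : ValuationSubring M | x ∈ V} ∈ F}
      mul_mem' := fun {a b} ha hb => by
        have h1 := Filter.inter_mem ha hb
        refine Filter.mem_of_superset h1 ?_
        rintro V ⟨h2, h3⟩
        exact V.mul_mem _ _ h2 h3
      one_mem' := hall fun V => V.one_mem
      add_mem' := fun {a b} ha hb => by
        have h1 := Filter.inter_mem ha hb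
        refine Filter.mem_of_superset h1 ?_
        rintro V ⟨h2, h3⟩
        exact V.add_mem _ _ h2 h3
      zero_mem' := hall fun V => V.zero_mem
      neg_mem' := fun {a} ha => by
        refine Filter.mem_of_superset ha ?_
        intro V h2
        exact V.neg_mem _ h2
      mem_or_inv_mem' := fun x => by
        have h1 : {V : ValuationSubring M | x ∈ V} ∪ {V : ValuationSubring M | x⁻¹ ∈ V} ∈ F :=
          hall fun V => V.mem_or_inv_mem x
        exact (Ultrafilter.union_mem_iff).1 h1 }
  exact ⟨W, fun x => Iff.rfl⟩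

/-- A property which holds near all extensions of `V` holds for all extensions of the valuation
rings near `V`. -/
theorem over_near {K M : Type u} [Field K] [Field M] [Algebra K M] (V : ValuationSubring K)
    (P : ValuationSubring M → Prop)
    (hP : ∀ W : ValuationSubring M, W.comap (algebraMap K M) = V → ∃ X N : Set M, X.Finite ∧
      N.Finite ∧ (∀ x ∈ X, x ∈ W) ∧ (∀ x ∈ N, x ∉ W) ∧
        ∀ W' : ValuationSubring M, (∀ x ∈ X, x ∈ W') → (∀ x ∈ N, x ∉ W') → P W') :
    ∃ A N : Set K, A.Finite ∧ N.Finite ∧ (∀ x ∈ A, x ∈ V) ∧ (∀ x ∈ N, x ∉ V) ∧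
      ∀ V' : ValuationSubring K, (∀ x ∈ A, x ∈ V') → (∀ x ∈ N, x ∉ V') →
        ∀ W' : ValuationSubring M, W'.comap (algebraMap K M) = V' → P W' := by
  classical
  let _ : TopologicalSpace (ValuationSubring M) :=
    pt fun (V : ValuationSubring M) (x : M) => x ∈ V
  have hcomp : CompactSpace (ValuationSubring M) := all_compact
  -- the sets
  have key : ∀ W : ValuationSubring M, ∃ (O : Set (ValuationSubring M)) (A N : Finset K),
      O ∈ 𝓝 W ∧ (∀ x ∈ A, x ∈ V) ∧ (∀ x ∈ N, x ∉ V) ∧ ∀ W' ∈ O,
        (∀ x ∈ A, algebraMap K M x ∈ W') → (∀ x ∈ N, algebraMap K M x ∉ W') → P W' := by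
    intro W
    by_cases hWV : W.comap (algebraMap K M) = V
    · obtain ⟨X, N, hX, hN, h1, h2, h3⟩ := hP W hWV
      refine ⟨{W' | (∀ x ∈ X, x ∈ W') ∧ ∀ x ∈ N, ¬ x ∈ W'}, ∅, ∅,
        (pt_isOpen_basic (m := fun (V : ValuationSubring M) (x : M) => x ∈ V) hX hN).mem_nhds
          ⟨h1, h2⟩, fun x hx => absurd hx (Finset.notMem_empty x),
        fun x hx => absurd hx (Finset.notMem_empty x), fun W' hW' _ _ => h3 W' hW'.1 hW'.2⟩
    · have hex : ∃ x : K, ¬ (x ∈ W.comap (algebraMap K M) ↔ x ∈ V) := by
        by_contra hcon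
        push Not at hcon
        exact hWV (by ext x; exact hcon x)
      obtain ⟨x, hx⟩ := hex
      by_cases hxV : x ∈ V
      · have hxW : ¬ algebraMap K M x ∈ W := fun h => hx ⟨fun _ => hxV, fun _ => h⟩
        refine ⟨{W' | ¬ algebraMap K M x ∈ W'}, {x}, ∅,
          (pt_isOpen (m := fun (V : ValuationSubring M) (x : M) => x ∈ V)
            (algebraMap K M x)).2.mem_nhds hxW, fun y hy => ?_,
          fun y hy => absurd hy (Finset.notMem_empty y), fun W' hW' h1 _ =>
            absurd (h1 x (Finset.mem_singleton_self x)) hW'⟩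
        rw [Finset.mem_singleton.1 hy]
        exact hxV
      · have hxW : algebraMap K M x ∈ W := by
          by_contra h
          exact hx ⟨fun h1 => absurd h1 h, fun h1 => absurd h1 hxV⟩
        refine ⟨{W' | algebraMap K M x ∈ W'}, ∅, {x},
          (pt_isOpen (m := fun (V : ValuationSubring M) (x : M) => x ∈ V)
            (algebraMap K M x)).1.mem_nhds hxW,
          fun y hy => absurd hy (Finset.notMem_empty y), fun y hy => ?_, fun W' hW' _ h1 =>
            absurd hW' (h1 x (Finset.mem_singleton_self x))⟩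
        rw [Finset.mem_singleton.1 hy]
        exact hxV
  choose O A N hO hA hN hP' using key
  obtain ⟨t, -, ht⟩ := isCompact_univ.elim_nhds_subcover O fun W _ => hO W
  refine ⟨↑(t.biUnion A), ↑(t.biUnion N), Finset.finite_toSet _, Finset.finite_toSet _, ?_, ?_, ?_⟩
  · intro x hx
    obtain ⟨W, -, hx⟩ := Finset.mem_biUnion.1 (Finset.mem_coe.1 hx)
    exact hA W x hx
  · intro x hx
    obtain ⟨W, -, hx⟩ := Finset.mem_biUnion.1 (Finset.mem_coe.1 hx)
    exact hN W x hx
  · rintro _ h1 h2 W' rfl
    obtain ⟨W, hWt, hW'⟩ := Set.mem_iUnion₂.1 (ht (Set.mem_univ W'))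
    refine hP' W W' hW' (fun x hx => ?_) (fun x hx => ?_)
    · exact h1 x (Finset.mem_coe.2 (Finset.mem_biUnion.2 ⟨W, hWt, hx⟩))
    · exact h2 x (Finset.mem_coe.2 (Finset.mem_biUnion.2 ⟨W, hWt, hx⟩))

end Pool.Agent.V7H82.ZT
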