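import Pool.Agent.V7H82.ZS.Gen
import Pool.Agent.R187.CT.Base

/-!
# Valuation rings over discrete ones
-/

set_option autoImplicit false

universe u v

namespace Pool.Agent.V7H82.ZT

open IsLocalRing Polynomial Pool.Agent.W418.LU2 Pool.Agent.TH188.QS Pool.Agent.V7H82.ZR

/-- Valuation rings over noetherian domains of dimension at most one. -/
theorem dvr_of_dim {R : Type u} [CommRing R] [IsDomain R] [IsNoetherianRing R]
    [Ring.KrullDimLE 1 R] {E : Type u} [Field E] [Algebra R E] [IsFractionRing R E] {L : Type u}
    [Field L] [Algebra E L] [FiniteDimensional E L] (V : ValuationSubring L)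
    (h : ∀ r : R, algebraMap E L (algebraMap R E r) ∈ V) :
    V = ⊤ ∨ IsDiscreteValuationRing V := by
  let _ : Algebra R L := ((algebraMap E L).comp (algebraMap R E)).toAlgebra
  have h1 : IsScalarTower R E L := IsScalarTower.of_algebraMap_eq' rfl
  let φ : R →+* V := ((algebraMap E L).comp (algebraMap R E)).codRestrict V.toSubring h
  let _ : Algebra R V := φ.toAlgebra
  have h2 : IsScalarTower R V L := IsScalarTower.of_algebraMap_eq (fun x => rfl)
  obtain ⟨hN, -⟩ := Pool.Agent.Y562.NN.ka R E L V
  have hpid : IsPrincipalIdealRing V := IsPrincipalIdealRing.of_isNoetherianRing_of_isBezout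
  by_cases hm : maximalIdeal V = ⊥
  · left
    ext x
    refine ⟨fun _ => trivial, fun _ => ?_⟩
    by_contra hx
    have hxi : x⁻¹ ∈ V := (V.mem_or_inv_mem x).resolve_left hx
    have h3 : (⟨x⁻¹, hxi⟩ : V) ∈ maximalIdeal V := by
      rw [mem_maximalIdeal, mem_nonunits_iff]
      intro hu
      obtain ⟨⟨d, hd⟩, hd'⟩ := isUnit_iff_exists_inv.1 hu
      have h4 : x⁻¹ * d = 1 := congrArg Subtype.val hd'
      apply hx
      rw [← inv_inv x, ← eq_inv_of_mul_eq_one_right h4]
      exact hd
    rw [hm, Ideal.mem_bot] at h3
    have h4 : x⁻¹ = 0 := congrArg Subtype.val h3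
    rw [inv_eq_zero] at h4
    rw [h4] at hx
    exact hx V.zero_mem
  · exact Or.inr { toIsPrincipalIdealRing := hpid, toIsLocalRing := inferInstance,
                   not_a_field' := hm }

/-- Finite extensions of trivial and discrete valuation rings. -/
theorem dvr_over {E L : Type u} [Field E] [Field L] [Algebra E L] [FiniteDimensional E L]
    (V : ValuationSubring L) (h : V.comap (algebraMap E L) = ⊤ ∨
      IsDiscreteValuationRing (V.comap (algebraMap E L))) :
    V = ⊤ ∨ IsDiscreteValuationRing V := by
  rcases h with h | h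
  · left
    ext x
    refine ⟨fun _ => trivial, fun _ => ?_⟩
    have h1 : IsIntegral E x := Algebra.IsIntegral.isIntegral x
    have h2 : ∀ c : E, algebraMap E L c ∈ V := by
      intro c
      have h3 : c ∈ V.comap (algebraMap E L) := by
        rw [h]
        trivial
      exact h3
    let φ : E →+* V := (algebraMap E L).codRestrict V.toSubring h2
    have h3 : IsIntegral V x := by
      obtain ⟨p, hp, hpx⟩ := h1
      refine ⟨p.map φ, hp.map _, ?_⟩
      rw [eval₂_map]
      exact hpx
    obtain ⟨y, hy⟩ := IsIntegrallyClosed.isIntegral_iff.1 h3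
    rw [← hy]
    exact y.2
  · have hd : Ring.KrullDimLE 1 (V.comap (algebraMap E L)) := inferInstance
    exact dvr_of_dim (R := V.comap (algebraMap E L)) (E := E) V fun r => r.2

end Pool.Agent.V7H82.ZT
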