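import Pool.Agent.V7H82.ZS.Dens
import Pool.Agent.R187.CT.Base

/-!
# Linear key polynomials over fields which are dense in their algebraic extensions
-/

set_option autoImplicit false

universe u v

namespace Pool.Agent.V7H82.ZT

open IsLocalRing Polynomial Pool.Agent.V7H82.ZS Pool.Agent.H176.DT

/-- A bound for the coefficients. -/
theorem coeff_bd {M : Type u} [Field M] (W : ValuationSubring M) (τ : M) (s : Multiset M)
    (h : ∀ b ∈ s, W.valuation τ ≤ W.valuation (τ - b)) (k : ℕ) :
    W.valuation (((s.map fun b => X - C b).prod).coeff k * τ ^ k) ≤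
      W.valuation ((s.map fun b => τ - b).prod) := by
  classical
  induction s using Multiset.induction_on generalizing k with
  | empty =>
    rw [Multiset.map_zero, Multiset.prod_zero, Multiset.map_zero, Multiset.prod_zero, coeff_one]
    split_ifs with hk
    · rw [hk, pow_zero, mul_one]
    · rw [zero_mul, map_zero]
      exact zero_le
  | cons b s ih =>
    have hb := h b (Multiset.mem_cons_self b s)
    have ih' := fun k => ih (fun r hr => h r (Multiset.mem_cons_of_mem hr)) k
    rw [Multiset.map_cons, Multiset.prod_cons, Multiset.map_cons, Multiset.prod_cons]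
    set g := (s.map fun b => X - C b).prod
    have hbv : W.valuation b ≤ W.valuation (τ - b) := by
      have h1 : b = τ - (τ - b) := by ring
      calc W.valuation b = W.valuation (τ - (τ - b)) := by rw [← h1]
        _ ≤ max (W.valuation τ) (W.valuation (τ - b)) := W.valuation.map_sub _ _
        _ = W.valuation (τ - b) := max_eq_right hb
    have h2 : ((X - C b) * g).coeff k * τ ^ k = (X * g).coeff k * τ ^ k - b * (g.coeff k * τ ^ k) := by
      rw [sub_mul, coeff_sub, coeff_C_mul]
      ring
    rw [h2]
    refine (W.valuation.map_sub _ _).trans (max_le ?_ ?_)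
    · rcases k with _ | k
      · rw [mul_coeff_zero, coeff_X_zero, zero_mul, zero_mul, map_zero]
        exact zero_le
      · rw [coeff_X_mul, pow_succ, ← mul_assoc, mul_comm, map_mul, map_mul]
        exact mul_le_mul' hb (ih' k)
    · rw [map_mul, map_mul]
      exact mul_le_mul' hbv (ih' k)

variable {K : Type u} [Field K] {M : Type v} [Field M] [Algebra K M]

/-- Valuation rings have extensions. -/
theorem exists_over (V : ValuationSubring K) (M : Type v) [Field M] [Algebra K M] :
    ∃ W : ValuationSubring M, W.comap (algebraMap K M) = V := by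
  obtain ⟨W', hWW', hloc⟩ := IsLocalRing.exists_factor_valuationRing
    ((algebraMap K M).comp V.subtype)
  refine ⟨W', ?_⟩
  ext x
  rw [ValuationSubring.mem_comap]
  constructor
  · intro hx
    by_contra hxW
    have hxi : x⁻¹ ∈ V := (V.mem_or_inv_mem x).resolve_left hxW
    have hx0 : x ≠ 0 := by
      rintro rfl
      exact hxW V.zero_mem
    have h2 : IsUnit (⟨x⁻¹, hxi⟩ : V) := by
      refine hloc.map_nonunit _ ?_
      refine IsUnit.of_mul_eq_one ⟨algebraMap K M x, hx⟩ (Subtype.ext ?_)
      change algebraMap K M x⁻¹ * algebraMap K M x = 1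
      rw [← map_mul, inv_mul_cancel₀ hx0, map_one]
    obtain ⟨⟨d, hd⟩, hd'⟩ := isUnit_iff_exists_inv.1 h2
    have h3 : x⁻¹ * d = 1 := congrArg Subtype.val hd'
    apply hxW
    rw [← inv_inv x, ← eq_inv_of_mul_eq_one_right h3]
    exact hd
  · intro hx
    exact hWW' ⟨x, hx⟩

lemma le_iff_le {V : ValuationSubring K} {W : ValuationSubring M}
    (hW : W.comap (algebraMap K M) = V) (x y : K) :
    V.valuation x ≤ V.valuation y ↔ W.valuation (algebraMap K M x) ≤ W.valuation (algebraMap K M y) := by
  by_cases hy : y = 0
  · rw [hy, map_zero, map_zero, map_zero, le_zero_iff, le_zero_iff, map_eq_zero, map_eq_zero,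
      map_eq_zero]
  · have hy' : algebraMap K M y ≠ 0 := (_root_.map_ne_zero _).2 hy
    rw [← div_le_one₀ (zero_lt_iff.2 ((_root_.map_ne_zero _).2 hy)),
      ← div_le_one₀ (zero_lt_iff.2 ((_root_.map_ne_zero _).2 hy')), ← map_div₀, ← map_div₀,
      ← map_div₀, V.valuation_le_one_iff, W.valuation_le_one_iff, ← hW, ValuationSubring.mem_comap]

variable {E : Type u} [Field E] {K : Type u} [Field K] [Algebra E K]

/-- A best linear polynomial. -/
theorem exists_best {V : ValuationSubring K} (hE : Apx (V.comap (algebraMap E K)))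
    (hcof : ∀ z : K, z ≠ 0 → ∃ c : E, c ≠ 0 ∧ V.valuation (algebraMap E K c) ≤ V.valuation z)
    {t : K} (ht : Transcendental E t) {W : ValuationSubring (AlgebraicClosure K)}
    (hW : W.comap (algebraMap K (AlgebraicClosure K)) = V) {s : Finset (AlgebraicClosure K)}
    (hs : ∀ r ∈ s, IsAlgebraic E r) :
    ∃ a : E, ∀ r ∈ s, W.valuation (algebraMap K _ t - algebraMap E _ a) ≤
      W.valuation (algebraMap K _ t - r) := by
  classical
  rcases s.eq_empty_or_nonempty with rfl | hne
  · exact ⟨0, fun r hr => absurd hr (Finset.notMem_empty r)⟩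
  obtain ⟨r₀, hr₀, hmin⟩ := Finset.exists_min_image s
    (fun r => W.valuation (algebraMap K _ t - r)) hne
  have hn0 : algebraMap K (AlgebraicClosure K) t - r₀ ≠ 0 := by
    intro h
    apply ht
    have h1 : algebraMap K (AlgebraicClosure K) t = r₀ := sub_eq_zero.1 h
    have h2 := hs r₀ hr₀
    rw [← h1] at h2
    exact (isAlgebraic_algebraMap_iff (algebraMap K (AlgebraicClosure K)).injective).1 h2
  obtain ⟨d, hd0, hd⟩ := cofinal hW (Algebra.IsIntegral.isIntegral (R := K)
    (algebraMap K (AlgebraicClosure K) t - r₀)⁻¹)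
  rw [map_mul, map_inv₀, ← div_eq_mul_inv,
    div_le_one₀ (zero_lt_iff.2 ((_root_.map_ne_zero _).2 hn0))] at hd
  obtain ⟨c, hc0, hc⟩ := hcof d hd0
  have hc' : W.valuation (algebraMap E (AlgebraicClosure K) c) ≤
      W.valuation (algebraMap K (AlgebraicClosure K) t - r₀) := by
    refine le_trans ?_ hd
    rw [IsScalarTower.algebraMap_apply E K (AlgebraicClosure K)]
    exact (le_iff_le hW _ _).1 hc
  let N : IntermediateField E (AlgebraicClosure K) := IntermediateField.adjoin E {r₀}
  have hN : Algebra.IsAlgebraic E N := by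
    apply IntermediateField.isAlgebraic_adjoin
    intro x hx
    rw [Set.mem_singleton_iff.1 hx]
    exact (hs r₀ hr₀).isIntegral
  have hWN : (W.comap (algebraMap N (AlgebraicClosure K))).comap (algebraMap E N) =
      V.comap (algebraMap E K) := by
    rw [ValuationSubring.comap_comap, ← hW, ValuationSubring.comap_comap]
    rfl
  obtain ⟨a, ha⟩ := hE.dense hWN ⟨r₀, IntermediateField.subset_adjoin E {r₀} rfl⟩
    (algebraMap E N c) ((_root_.map_ne_zero _).2 hc0)
  have ha' : W.valuation (r₀ - algebraMap E (AlgebraicClosure K) a) <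
      W.valuation (algebraMap E (AlgebraicClosure K) c) := by
    have h1 := (le_iff_le (V := W.comap (algebraMap N (AlgebraicClosure K))) (W := W) rfl
      (algebraMap E N c) (⟨r₀, IntermediateField.subset_adjoin E {r₀} rfl⟩ - algebraMap E N a)).not
    rw [not_le, not_le] at h1
    exact h1.1 ha
  refine ⟨a, fun r hr => ?_⟩
  have h3 : algebraMap K (AlgebraicClosure K) t - algebraMap E (AlgebraicClosure K) a =
      (algebraMap K (AlgebraicClosure K) t - r₀) + (r₀ - algebraMap E (AlgebraicClosure K) a) := by
    ring
  rw [h3]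
  exact ((W.valuation.map_add _ _).trans (max_le le_rfl (ha'.le.trans hc'))).trans (hmin r hr)

/-- Each polynomial is determined by a linear key polynomial. -/
theorem lin_det {V : ValuationSubring K} (hE : Apx (V.comap (algebraMap E K)))
    (hcof : ∀ z : K, z ≠ 0 → ∃ c : E, c ≠ 0 ∧ V.valuation (algebraMap E K c) ≤ V.valuation z)
    {t : K} (ht : Transcendental E t) (f : (algebraMap E K).fieldRange[X]) :
    ∃ (ϕ : (algebraMap E K).fieldRange[X]) (n : ℕ) (β : Fin n → (algebraMap E K).fieldRange[X]),
      KP V t ϕ β ∧ Domi V t ϕ f := by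
  classical
  obtain ⟨W, hW⟩ := exists_over V (AlgebraicClosure K)
  let φ : E →+* (algebraMap E K).fieldRange := (algebraMap E K).rangeRestrictField
  have hφs : Function.Surjective φ := by
    rintro ⟨_, x, rfl⟩
    exact ⟨x, rfl⟩
  obtain ⟨g, rfl⟩ := map_surjective φ hφs f
  obtain ⟨a, ha⟩ := exists_best hE hcof ht hW
    (s := (g.map (algebraMap E (AlgebraicClosure K))).roots.toFinset) (by
      intro r hr
      rw [Multiset.mem_toFinset] at hr
      have h0 : g.map (algebraMap E (AlgebraicClosure K)) ≠ 0 := by
        intro h0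
        rw [h0, roots_zero] at hr
        exact absurd hr (Multiset.notMem_zero r)
      refine ⟨g, fun h1 => h0 (by rw [h1, Polynomial.map_zero]), ?_⟩
      rw [mem_roots h0, IsRoot.def, eval_map] at hr
      exact hr)
  refine ⟨X - C (φ a), 1, fun _ => 1, ?_, ?_⟩
  · have hdeg : (X - C (φ a)).degree = 1 := degree_X_sub_C _
    have hcst : ∀ f : (algebraMap E K).fieldRange[X], f.degree < 1 → f = C (f.coeff 0) := by
      intro f hf
      exact eq_C_of_degree_le_zero (Nat.WithBot.lt_one_iff_le_zero.1 hf)
    refine ⟨monic_X_sub_C _, by rw [natDegree_X_sub_C]; exact one_pos, fun _ => ?_,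
      fun _ => one_ne_zero, fun f hf => ?_, fun c i => ?_, fun f g hf hg hf0 hg0 => ?_⟩
    · rw [hdeg, degree_one]
      exact zero_lt_one
    · rw [hdeg] at hf
      refine ⟨fun _ => f.coeff 0, ?_⟩
      rw [Fin.sum_univ_one, mul_one]
      exact hcst f hf
    · rw [Fin.sum_univ_one, Subsingleton.elim i 0]
    · rw [hdeg] at hf hg
      have h1 : (f * g) /ₘ (X - C (φ a)) = 0 := by
        rw [divByMonic_eq_zero_iff (monic_X_sub_C _), hdeg, hcst f hf, hcst g hg, ← C_mul]
        exact lt_of_le_of_lt degree_C_le zero_lt_one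
      rw [h1, zero_mul, map_zero, map_zero, hcst f hf, hcst g hg, ← C_mul, aeval_C]
      rw [zero_lt_iff, Ne, map_eq_zero]
      refine (_root_.map_ne_zero (algebraMap (algebraMap E K).fieldRange K)).2 (mul_ne_zero ?_ ?_)
      · intro h2
        exact hf0 (by rw [hcst f hf, h2, C_0])
      · intro h2
        exact hg0 (by rw [hcst g hg, h2, C_0])
  · set α := algebraMap E (AlgebraicClosure K) a with hα
    set t' := algebraMap K (AlgebraicClosure K) t with ht'
    let h : E[X] := g.comp (X + C a)
    have hh : h.comp (X - C a) = g := by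
      rw [comp_assoc, add_comp, X_comp, C_comp, sub_add_cancel, comp_X]
    have hdeg : h.natDegree ≤ g.natDegree := by
      refine natDegree_comp_le.trans ?_
      rw [natDegree_X_add_C, mul_one]
    refine ⟨g.natDegree + 1, fun k => C (φ (h.coeff k)), ⟨fun k => ?_, ?_⟩, fun k hk => ?_⟩
    · rw [degree_X_sub_C]
      exact lt_of_le_of_lt degree_C_le zero_lt_one
    · conv_lhs => rw [← hh]
      rw [map_comp, Polynomial.map_sub, map_X, map_C, comp,
        eval₂_eq_sum_range' C (n := g.natDegree + 1)
          (Nat.lt_succ_of_le (natDegree_map_le.trans hdeg))]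
      refine Finset.sum_congr rfl fun k _ => ?_
      rw [coeff_map]
    · have h1 : aeval t (C (φ (h.coeff k)) * (X - C (φ a)) ^ k) =
          algebraMap E K (h.coeff k) * (t - algebraMap E K a) ^ k := by
        rw [map_mul, map_pow, map_sub, aeval_X, aeval_C, aeval_C]
        rfl
      have h2 : aeval t (g.map φ) = eval₂ (algebraMap E K) t g := by
        rw [aeval_def, eval₂_map]
        rfl
      rw [h1, h2, le_iff_le hW, map_mul, map_pow, map_sub, ← ht',
        ← IsScalarTower.algebraMap_apply, ← IsScalarTower.algebraMap_apply, ← hα, hom_eval₂,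
        ← IsScalarTower.algebraMap_eq, ← ht', ← eval_map]
      have hsp : (g.map (algebraMap E (AlgebraicClosure K))).Splits := IsAlgClosed.splits _
      have h3 : (h.map (algebraMap E (AlgebraicClosure K))) =
          C (g.map (algebraMap E (AlgebraicClosure K))).leadingCoeff *
            (((g.map (algebraMap E (AlgebraicClosure K))).roots.map fun r => r - α).map
              fun b => X - C b).prod := by
        rw [map_comp, Polynomial.map_add, map_X, map_C, ← hα]
        conv_lhs => rw [hsp.eq_prod_roots]
        rw [mul_comp, C_comp, multiset_prod_comp, Multiset.map_map, Multiset.map_map]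
        congr 3
        ext1 r
        simp only [Function.comp_apply, sub_comp, X_comp, C_comp, C_sub]
        ring
      have h4 := coeff_bd W (t' - α) ((g.map (algebraMap E (AlgebraicClosure K))).roots.map
        fun r => r - α) (by
          intro b hb
          obtain ⟨r, hr, rfl⟩ := Multiset.mem_map.1 hb
          have h5 := ha r (Multiset.mem_toFinset.2 hr)
          rw [sub_sub_sub_cancel_right]
          exact h5) k
      have h6 : ((((g.map (algebraMap E (AlgebraicClosure K))).roots.map fun r => r - α).map
          fun b => t' - α - b).prod) =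
          ((g.map (algebraMap E (AlgebraicClosure K))).roots.map fun r => t' - r).prod := by
        rw [Multiset.map_map]
        congr 2
        ext1 r
        simp only [Function.comp_apply]
        ring
      rw [h6] at h4
      rw [← coeff_map, h3, coeff_C_mul, mul_assoc, hsp.eval_eq_prod_roots]
      rw [Valuation.map_mul _ (g.map (algebraMap E (AlgebraicClosure K))).leadingCoeff,
        Valuation.map_mul _ (g.map (algebraMap E (AlgebraicClosure K))).leadingCoeff]
      exact mul_le_mul' le_rfl h4

lemma trans_range {t : K} (ht : Transcendental E t) :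
    Transcendental (algebraMap E K).fieldRange t := by
  rintro ⟨p, hp0, hp⟩
  have hφs : Function.Surjective (algebraMap E K).rangeRestrictField := by
    rintro ⟨_, x, rfl⟩
    exact ⟨x, rfl⟩
  obtain ⟨q, rfl⟩ := map_surjective _ hφs p
  refine ht ⟨q, fun h => hp0 (by rw [h, Polynomial.map_zero]), ?_⟩
  rw [aeval_def, eval₂_map] at hp
  exact hp

open Pool.Agent.TH188.QS Pool.Agent.W418.LU2 Pool.Agent.R187.CT in
/-- The valuations of `E(t)` in which the values of `E` are cofinal are good. -/
theorem good_line {R : Type u} [CommRing R] (hR : HJ R) (ρ : R →+* E) (V : ValuationSubring K)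
    (hρV : ∀ a, algebraMap E K (ρ a) ∈ V) (hEf : ∃ S : Set E, S.Finite ∧ ∀ z, Fr (rg ρ S) z)
    (hE : Good ρ (V.comap (algebraMap E K))) (hA : Apx (V.comap (algebraMap E K)))
    (hcof : ∀ z : K, z ≠ 0 → ∃ c : E, c ≠ 0 ∧ V.valuation (algebraMap E K c) ≤ V.valuation z)
    {t : K} (ht : Transcendental E t)
    (hK : (algebraMap E K).fieldRange ⊔ Subfield.closure {t} = ⊤) :
    Good ((algebraMap E K).comp ρ) V := by
  refine good_tower hR ρ V hρV hEf hE fun R' hI => ?_
  have h1 := sub_trans V R' t (trans_range ht) (fun f => lin_det hA hcof ht f) hI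
  rw [hK] at h1
  exact h1

end Pool.Agent.V7H82.ZT
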