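import Pool.Agent.V7H82.ZT.Her
import Pool.Agent.V7H82.ZT.Lin

/-!
# Descent of the field, and valuation rings of algebraic extensions
-/

set_option autoImplicit false

universe u v

namespace Pool.Agent.V7H82.ZT

open IsLocalRing Polynomial Pool.Agent.W418.LU2 Pool.Agent.TH188.QS Pool.Agent.V7H82.ZR
  Pool.Agent.V7H82.ZS

section unmap

variable {L M : Type u} [Field L] [Field M] {j : L →+* M} {W : ValuationSubring M}

lemma mem_map_iff {P : Subring L} {x : L} : j x ∈ P.map j ↔ x ∈ P := by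
  constructor
  · rintro ⟨y, hy, hxy⟩
    rw [← j.injective hxy]
    exact hy
  · exact fun h => ⟨x, h, rfl⟩

lemma regP_unmap {ι : Type} [Fintype ι] {x : ι → L} {P : Subring L} (hx : ∀ i, x i ∈ P)
    (h : RegP W.toSubring (P.map j) (fun i => j (x i))) : RegP (W.comap j).toSubring P x := by
  have hreg := h.reg
  let e : P ≃+* P.map j := P.equivMapOfInjective j j.injective
  have he : ∀ p : P, ((e p : P.map j) : M) = j p := fun p => rfl
  have hreg' : IsRegularLocalRing P := IsRegularLocalRing.of_ringEquiv e.symm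
  have hmax : ∀ p : P, e p ∈ maximalIdeal (P.map j) ↔ p ∈ maximalIdeal P := by
    intro p
    rw [mem_maximalIdeal, mem_maximalIdeal, mem_nonunits_iff, mem_nonunits_iff]
    exact not_congr (MulEquiv.isUnit_map e)
  have hmap : (maximalIdeal P).map (e : P →+* P.map j) = maximalIdeal (P.map j) := by
    apply le_antisymm
    · rw [Ideal.map_le_iff_le_comap]
      intro p hp
      exact (hmax p).2 hp
    · intro q hq
      obtain ⟨p, rfl⟩ := e.surjective q
      exact Ideal.mem_map_of_mem (e : P →+* P.map j) ((hmax p).1 hq)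
  refine ⟨?_, fun i => (_root_.map_ne_zero j).1 (h.ne i), hx, hreg', ?_, ?_⟩
  · intro p hp
    exact h.PA ⟨p, hp, rfl⟩
  · intro y hy hy0 hyW
    have h1 : (j y)⁻¹ ∈ P.map j := h.inv (j y) ⟨y, hy, rfl⟩ ((_root_.map_ne_zero j).2 hy0) (by
      rw [← map_inv₀]
      exact hyW)
    rw [← map_inv₀] at h1
    exact mem_map_iff.1 h1
  · intro c hc hs i
    have h1 := h.ind (fun i => e (c i)) (fun i hi => by
      have h2 := hc i (fun h3 => hi ((hmax _).2 h3))
      change e (c i) = 0
      rw [h2, map_zero]) (by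
      have h3 : (∑ i, e (c i) * (⟨j (x i), h.mem i⟩ : P.map j)) =
          e (∑ i, c i * ⟨x i, hx i⟩) := by
        rw [map_sum]
        refine Finset.sum_congr rfl fun i _ => ?_
        rw [map_mul]
        rfl
      rw [h3, ← hmap, ← Ideal.map_pow]
      exact Ideal.mem_map_of_mem (e : P →+* P.map j) hs) i
    exact (hmax _).1 h1

lemma pmon_unmap {ι : Type} [Fintype ι] {x : ι → L} {P : Subring L} {g : L}
    (h : PMon (P.map j) (fun i => j (x i)) (j g)) : PMon P x g := by
  obtain ⟨_, hu0, ⟨u, hu1, rfl⟩, hu2, δ, hg⟩ := h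
  rw [← map_inv₀] at hu2
  refine ⟨u, (_root_.map_ne_zero j).1 hu0, hu1, mem_map_iff.1 hu2, δ, ?_⟩
  rw [← mo_map, ← map_mul] at hg
  exact j.injective hg

theorem da_unmap {A : Subring L} {G H : Set L} (h : DA W (A.map j) (j '' G) (j '' H)) :
    DA (W.comap j) A G H := by
  obtain ⟨ι, _, x, P, _, h1, ⟨⟨g, hgA, rfl⟩, hg0, T, hTf, hT, hP⟩, h3, h4, h5⟩ := h
  have hTj : T = j '' (j ⁻¹' T) := by
    rw [Set.image_preimage_eq_inter_range, Set.left_eq_inter]
    intro t ht
    obtain ⟨a, -, ha⟩ := (hT t ht).2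
    refine ⟨a * g⁻¹, ?_⟩
    rw [map_mul, map_inv₀, ha, mul_inv_cancel_right₀ hg0]
  have hP' : P = (lo (W.comap j).toSubring (Subring.closure ((A : Set L) ∪ j ⁻¹' T))).map j := by
    rw [hP, ZR.lo_map, RingHom.map_closure, Set.image_union, ← hTj]
    rfl
  set P' := lo (W.comap j).toSubring (Subring.closure ((A : Set L) ∪ j ⁻¹' T)) with hP'd
  have hx : ∀ i, ∃ y ∈ P', j y = x i := by
    intro i
    have h6 := h1.mem i
    rw [hP'] at h6
    exact h6
  choose y hy hyx using hx
  obtain rfl : x = fun i => j (y i) := funext fun i => (hyx i).symm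
  rw [hP'] at h1 h3 h4 h5
  refine ⟨ι, inferInstance, y, P', g, regP_unmap hy h1, ⟨hgA, (_root_.map_ne_zero j).1 hg0,
    j ⁻¹' T, hTf.preimage j.injective.injOn, fun t ht => ⟨(hT _ ht).1, ?_⟩, rfl⟩, pmon_unmap h3,
    fun g' hg' => pmon_unmap (h4 _ ⟨g', hg', rfl⟩), fun h' hh' => mem_map_iff.1 (h5 _ ⟨h', hh', rfl⟩)⟩
  have h6 := (hT _ ht).2
  rw [← map_mul] at h6
  exact mem_map_iff.1 h6

end unmap

open Pool.Agent.R187.CT in
/-- Goodness for algebraic extensions. -/
theorem good_alg {R : Type u} [CommRing R] {K : Type u} [Field K] {ρ : R →+* K}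
    {V : ValuationSubring K} {M : Type u} [Field M] [Algebra K M] [IsAlgClosed M]
    (hV : ∀ W' : ValuationSubring M, W'.comap (algebraMap K M) = V →
      ∀ T : Set M, T.Finite → ZR.rg ((algebraMap K M).comp ρ) T ≤ W'.toSubring →
            GP W' (ZR.rg ((algebraMap K M).comp ρ) T))
    {L : Type u} [Field L] [Algebra K L] [Algebra.IsAlgebraic K L] (V' : ValuationSubring L)
    (hV' : V'.comap (algebraMap K L) = V) : Good ((algebraMap K L).comp ρ) V' := by
  let j : L →ₐ[K] M := IsAlgClosed.lift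
  obtain ⟨W, hW⟩ : ∃ W : ValuationSubring M, W.comap (j : L →+* M) = V' := by
    let _ : Algebra L M := (j : L →+* M).toAlgebra
    exact exists_over V' M
  have hj : (j : L →+* M).comp (algebraMap K L) = algebraMap K M := by
    ext x
    exact j.commutes x
  refine ⟨∅, Set.finite_empty, fun T hT hTV _ => ?_⟩
  have hmap : (ZR.rg ((algebraMap K L).comp ρ) T).map (j : L →+* M) =
      ZR.rg ((algebraMap K M).comp ρ) ((j : L →+* M) '' T) := by
    rw [ZR.rg, ZR.rg, RingHom.map_closure, Set.image_union, ← hj]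
    congr 2
    ext z
    constructor
    · rintro ⟨_, ⟨a, rfl⟩, rfl⟩
      exact ⟨a, rfl⟩
    · rintro ⟨a, rfl⟩
      exact ⟨_, ⟨a, rfl⟩, rfl⟩
  have hWV : W.comap (algebraMap K M) = V := by
    rw [← hV', ← hW, ValuationSubring.comap_comap, hj]
  have hle : ZR.rg ((algebraMap K M).comp ρ) ((j : L →+* M) '' T) ≤ W.toSubring := by
    rw [← hmap]
    rintro _ ⟨z, hz, rfl⟩
    have h1 := hTV hz
    rw [← hW] at h1
    exact h1
  have hfr : ∀ z : L, Fr (ZR.rg ((algebraMap K L).comp ρ) T) z →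
      Fr (ZR.rg ((algebraMap K M).comp ρ) ((j : L →+* M) '' T)) ((j : L →+* M) z) := by
    rintro _ ⟨a, ha, b, hb, hb0, rfl⟩
    rw [← hmap]
    exact ⟨_, ⟨a, ha, rfl⟩, _, ⟨b, hb, rfl⟩, (_root_.map_ne_zero _).2 hb0, by
      rw [map_mul, map_inv₀]⟩
  intro G H hG hH hGf hHf
  have h1 := hV W hWV ((j : L →+* M) '' T) (hT.image _) hle ((j : L →+* M) '' G)
    ((j : L →+* M) '' H) (hG.image _) (hH.image _) (by
      rintro _ ⟨h, hh, rfl⟩
      exact ⟨(_root_.map_ne_zero _).2 (hGf h hh).1, hfr _ (hGf h hh).2⟩) (by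
      rintro _ ⟨h, hh, rfl⟩
      refine ⟨?_, hfr _ (hHf h hh).2⟩
      have h2 := (hHf h hh).1
      rw [← hW] at h2
      exact h2)
  have h2 : DA W ((ZR.rg ((algebraMap K L).comp ρ) T).map (j : L →+* M)) ((j : L →+* M) '' G)
      ((j : L →+* M) '' H) := by
    rw [hmap]
    exact h1
  have h3 := da_unmap h2
  rw [hW] at h3
  exact h3

end Pool.Agent.V7H82.ZT
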