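import Pool.Agent.V7H82.ZT.Cpt

/-!
# All extensions of a generic valuation ring to finite extensions are good
-/

set_option autoImplicit false

universe u v

namespace Pool.Agent.V7H82.ZT

open IsLocalRing Polynomial Pool.Agent.W418.LU2 Pool.Agent.TH188.QS Pool.Agent.V7H82.ZR
  Pool.Agent.V7H82.ZS
open scoped Topology

variable {R : Type u} [CommRing R] {K : Type u} [Field K] {M : Type u} [Field M] [Algebra K M]

/-- The statement for one valuation ring. -/
def Loc1 (A : Subring M) (G H : Set M) (W : ValuationSubring M) : Prop :=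
  A ≤ W.toSubring → (∀ h ∈ H, h ∈ W) → DA W A G H

theorem her_near (hR : HJ R) (ρ : R →+* K) [Algebra.IsAlgebraic K M] {V : ValuationSubring K}
    (hV : V = ⊤ ∨ IsDiscreteValuationRing V) {T G H : Set M} (hT : T.Finite) (hG : G.Finite)
    (hH : H.Finite) (hGf : ∀ h ∈ G, h ≠ 0 ∧ Fr (ZR.rg ((algebraMap K M).comp ρ) T) h)
    (hHf : ∀ h ∈ H, Fr (ZR.rg ((algebraMap K M).comp ρ) T) h) :
    ∃ A N : Set K, A.Finite ∧ N.Finite ∧ (∀ x ∈ A, x ∈ V) ∧ (∀ x ∈ N, x ∉ V) ∧
      ∀ V' : ValuationSubring K, (∀ x ∈ A, x ∈ V') → (∀ x ∈ N, x ∉ V') →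
        ∀ W' : ValuationSubring M, W'.comap (algebraMap K M) = V' →
          Loc1 (ZR.rg ((algebraMap K M).comp ρ) T) G H W' := by
  refine over_near V _ fun W hW => ?_
  by_cases h1 : ZR.rg ((algebraMap K M).comp ρ) T ≤ W.toSubring
  swap
  · rw [ZR.rg, Subring.closure_le] at h1
    obtain ⟨z, hz, hzW⟩ := Set.not_subset.1 h1
    refine ⟨∅, {z}, Set.finite_empty, Set.finite_singleton z, fun x hx => hx.elim, fun x hx => ?_,
      fun W' _ h2 h3 => ?_⟩
    · rw [Set.mem_singleton_iff.1 hx]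
      exact hzW
    · exact absurd (h3 (Subring.subset_closure hz)) (h2 z rfl)
  by_cases h2 : ∀ h ∈ H, h ∈ W
  swap
  · push Not at h2
    obtain ⟨z, hz, hzW⟩ := h2
    refine ⟨∅, {z}, Set.finite_empty, Set.finite_singleton z, fun x hx => hx.elim, fun x hx => ?_,
      fun W' _ h3 _ h4 => ?_⟩
    · rw [Set.mem_singleton_iff.1 hx]
      exact hzW
    · exact absurd (h4 z hz) (h3 z rfl)
  let F : IntermediateField K M := IntermediateField.adjoin K T
  have hFin : FiniteDimensional K F := by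
    have hTf : Finite T := hT
    exact IntermediateField.finiteDimensional_adjoin fun x _ => Algebra.IsIntegral.isIntegral x
  have hle : ZR.rg ((algebraMap K M).comp ρ) T ≤ F.toSubfield.toSubring := by
    rw [ZR.rg, Subring.closure_le]
    rintro z (⟨a, rfl⟩ | hz)
    · exact F.algebraMap_mem (ρ a)
    · exact IntermediateField.subset_adjoin K T hz
  have h3 : W.comap (algebraMap F M) = ⊤ ∨ IsDiscreteValuationRing (W.comap (algebraMap F M)) := by
    apply dvr_over (E := K)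
    have h4 : (W.comap (algebraMap F M)).comap (algebraMap K F) = V := by
      rw [ValuationSubring.comap_comap, ← hW]
      rfl
    rw [h4]
    exact hV
  have hda := da_near hR ((algebraMap K M).comp ρ) hT h1 F.toSubfield hle h3 hG hH hGf
    fun h hh => ⟨h2 h hh, hHf h hh⟩
  obtain ⟨X, N, hX, hN, h5, h6, h7⟩ := spread hR ((algebraMap K M).comp ρ) hT h1 hG hH hda
  refine ⟨X, (fun z => z⁻¹) '' N, hX, hN.image _, h5, ?_, fun W' h8 h9 h10 _ =>
    h7 W' h10 h8 fun z hz => h9 _ ⟨z, hz, rfl⟩⟩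
  rintro _ ⟨z, hz, rfl⟩
  exact h6 z hz

variable {B : Subring K} {𝔭 : Ideal B}

theorem nd_her (hR : HJ R) (ρ : R →+* K) [Algebra.IsAlgebraic K M] [IsNoetherianRing B]
    (hfr : ∀ z : K, Fr B z) {T G H : Set M} (hT : T.Finite) (hG : G.Finite)
    (hH : H.Finite) (hGf : ∀ h ∈ G, h ≠ 0 ∧ Fr (ZR.rg ((algebraMap K M).comp ρ) T) h)
    (hHf : ∀ h ∈ H, Fr (ZR.rg ((algebraMap K M).comp ρ) T) h) :
    @IsNowhereDense (Cen B 𝔭) (pt mem) {V | ¬ ∀ W' : ValuationSubring M,
      W'.comap (algebraMap K M) = V.1 → Loc1 (ZR.rg ((algebraMap K M).comp ρ) T) G H W'} := by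
  refine pt_nowhereDense fun V A N hA hN h1 h2 => ?_
  obtain ⟨V₁, h3, h4, hV₁⟩ := near_dvr hfr V hA hN h1 h2
  obtain ⟨A', N', hA', hN', h5, h6, h7⟩ := her_near hR ρ hV₁ hT hG hH hGf hHf
  refine ⟨V₁, A', N', hA', hN', ?_, ?_, fun V' h8 h9 h10 => h10 (h7 V'.1 h8 h9)⟩
  · rintro x (hx | hx)
    · exact h3 x hx
    · exact h5 x hx
  · rintro x (hx | hx)
    · exact h4 x hx
    · exact h6 x hx

/-- All extensions to algebraic extensions of generic valuation rings. -/
theorem residual_her [Algebra.IsAlgebraic K M] [Countable M] (hR : HJ R) [Countable R] {ρ : R →+* K}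
    {T₁ : Set K} (h : Ess ρ T₁ B) (hfr : ∀ z : K, Fr B z) [𝔭.IsPrime] :
    {V : Cen B 𝔭 | ∀ W' : ValuationSubring M, W'.comap (algebraMap K M) = V.1 →
        ∀ T : Set M, T.Finite → ZR.rg ((algebraMap K M).comp ρ) T ≤ W'.toSubring →
            GP W' (ZR.rg ((algebraMap K M).comp ρ) T)} ∈ @residual (Cen B 𝔭) (pt mem) := by
  classical
  let _ : TopologicalSpace (Cen B 𝔭) := pt mem
  have hnoe : IsNoetherianRing B := h.noeth hR
  have nd : ∀ {P : Cen B 𝔭 → Prop}, IsNowhereDense {V | ¬ P V} →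
      {V | P V} ∈ residual (Cen B 𝔭) := by
    intro P hP
    have h1 : IsMeagre {V | ¬ P V} := hP.isMeagre
    have h2 : {V | ¬ P V}ᶜ ∈ residual (Cen B 𝔭) := h1
    convert h2 using 1
    ext V
    simp
  obtain ⟨ρ', hρ'⟩ : ∃ ρ' : R →+* M, ρ' = (algebraMap K M).comp ρ := ⟨_, rfl⟩
  have h1 : ∀ T G H : Finset M, {V : Cen B 𝔭 | (∀ h ∈ G, h ≠ 0 ∧ Fr (ZR.rg ρ' (T : Set M)) h) →
      (∀ h ∈ H, Fr (ZR.rg ρ' (T : Set M)) h) → ∀ W' : ValuationSubring M,
        W'.comap (algebraMap K M) = V.1 → Loc1 (ZR.rg ρ' (T : Set M)) (G : Set M) (H : Set M) W'} ∈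
          residual (Cen B 𝔭) := by
    intro T G H
    by_cases hG : ∀ h ∈ G, h ≠ 0 ∧ Fr (ZR.rg ρ' (T : Set M)) h
    swap
    · filter_upwards with V h1
      exact absurd h1 hG
    by_cases hH : ∀ h ∈ H, Fr (ZR.rg ρ' (T : Set M)) h
    swap
    · filter_upwards with V _ h1
      exact absurd h1 hH
    subst hρ'
    have h2 := nd (nd_her (B := B) (𝔭 := 𝔭) hR ρ hfr (M := M) (Finset.finite_toSet T)
      (Finset.finite_toSet G) (Finset.finite_toSet H) (fun h hh => hG h (Finset.mem_coe.1 hh))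
      (fun h hh => hH h (Finset.mem_coe.1 hh)))
    filter_upwards [h2] with V hV _ _
    exact hV
  have h2 := eventually_countable_forall.2 fun q : Finset M × Finset M × Finset M =>
    h1 q.1 q.2.1 q.2.2
  filter_upwards [h2] with V hV W' hW' T hT hTW G H hG hH hGf hHf
  rw [← hρ'] at hTW hGf hHf ⊢
  have h3 := hV (hT.toFinset, hG.toFinset, hH.toFinset)
  simp only [hT.coe_toFinset, hG.coe_toFinset, hH.coe_toFinset, Set.Finite.mem_toFinset] at h3
  exact h3 hGf (fun h hh => (hHf h hh).2) W' hW' hTW fun h hh => (hHf h hh).1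

end Pool.Agent.V7H82.ZT
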