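import Pool.Agent.V7H82.ZT.Stab

/-!
# Extensions in which the ground field is dense
-/

set_option autoImplicit false

universe u v

namespace Pool.Agent.V7H82.ZT

open IsLocalRing Polynomial Pool.Agent.W418.LU2 Pool.Agent.TH188.QS Pool.Agent.V7H82.ZR
  Pool.Agent.V7H82.ZS Pool.Agent.H176.DT

variable {E : Type u} [Field E] {K : Type u} [Field K] [Algebra E K]

/-- The ground field is dense. -/
def Dns (E : Type u) [Field E] {K : Type u} [Field K] [Algebra E K] (W : ValuationSubring K)
    (L : Subfield K) : Prop :=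
  ∀ θ ∈ L, ∀ c : K, c ≠ 0 → ∃ y : E, W.valuation (θ - algebraMap E K y) < W.valuation c

lemma val_eq {W : ValuationSubring K} {a b : K} (h : W.valuation (a - b) < W.valuation a) :
    W.valuation b = W.valuation a := by
  have h1 : b = a - (a - b) := by ring
  rw [h1]
  exact Valuation.map_sub_eq_of_lt_left _ h

/-- Intermediate fields in which the ground field is dense have approximate roots. -/
theorem apx_up {W : ValuationSubring K} (hE : Apx (W.comap (algebraMap E K))) {L : Subfield K}
    (hEL : ∀ e : E, algebraMap E K e ∈ L) (hd : Dns E W L) : Apx (W.comap L.subtype) := by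
  classical
  intro g hg hg1 hgV c hc
  have hc' : (c : K) ≠ 0 := fun h => hc (Subtype.ext h)
  -- a small element of the ground field
  obtain ⟨c₀, hc₀, hc₀1, hc₀c⟩ : ∃ c₀ : E, c₀ ≠ 0 ∧ W.valuation (algebraMap E K c₀) ≤ 1 ∧
      W.valuation (algebraMap E K c₀) ≤ W.valuation (c : K) := by
    obtain ⟨y, hy⟩ := hd c c.2 c hc'
    have h1 := val_eq hy
    rcases le_total (W.valuation (algebraMap E K y)) 1 with h2 | h2
    · refine ⟨y, ?_, h2, h1.le⟩
      rintro rfl
      rw [map_zero, map_zero] at h1
      exact hc' ((map_eq_zero _).1 h1.symm)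
    · exact ⟨1, one_ne_zero, by rw [map_one, map_one], by rw [map_one, map_one, ← h1]; exact h2⟩
  have hc₀' : algebraMap E K c₀ ≠ 0 := (_root_.map_ne_zero _).2 hc₀
  have happ : ∀ i, ∃ y : E, W.valuation ((g.coeff i : K) - algebraMap E K y) <
      W.valuation (algebraMap E K c₀) := fun i => hd _ (g.coeff i).2 _ hc₀'
  choose y hy using happ
  set n := g.natDegree with hn
  let q : E[X] := ∑ i ∈ Finset.range n, C (y i) * X ^ i
  have hq : q.degree < n := by
    rw [← mem_degreeLT]
    refine sum_mem fun i hi => ?_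
    rw [mem_degreeLT]
    exact lt_of_le_of_lt (degree_C_mul_X_pow_le _ _) (by
      exact_mod_cast Finset.mem_range.1 hi)
  let g₀ : E[X] := X ^ n + q
  have hg₀ : g₀.Monic := monic_X_pow_add hq
  have hg₀n : g₀.natDegree = n := by
    have h1 : g₀.degree = n := by
      change (X ^ n + q).degree = (n : WithBot ℕ)
      rw [degree_add_eq_left_of_degree_lt (by rw [degree_X_pow]; exact hq), degree_X_pow]
    exact natDegree_eq_of_degree_eq_some h1
  have hyV : ∀ i, y i ∈ W.comap (algebraMap E K) := by
    intro i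
    rw [ValuationSubring.mem_comap, ← W.valuation_le_one_iff]
    have h1 : algebraMap E K (y i) = (g.coeff i : K) - ((g.coeff i : K) - algebraMap E K (y i)) := by
      ring
    rw [h1]
    refine (W.valuation.map_sub _ _).trans (max_le ?_ ((hy i).le.trans hc₀1))
    exact (W.valuation_le_one_iff _).2 (hgV i)
  have hg₀V : ∀ i, g₀.coeff i ∈ W.comap (algebraMap E K) := by
    intro i
    have h1 : g₀.coeff i = (X ^ n : E[X]).coeff i + q.coeff i := coeff_add _ _ _
    rw [h1, coeff_X_pow, finsetSum_coeff]
    refine add_mem ?_ (sum_mem fun j _ => ?_)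
    · split_ifs
      exacts [one_mem _, zero_mem _]
    · rw [coeff_C_mul, coeff_X_pow]
      refine mul_mem (hyV j) ?_
      split_ifs
      exacts [one_mem _, zero_mem _]
  obtain ⟨z, hzV, hz⟩ := hE g₀ hg₀ (by rw [hg₀n]; exact hg1) hg₀V c₀ hc₀
  refine ⟨⟨algebraMap E K z, hEL z⟩, hzV, ?_⟩
  have hzW : W.valuation (algebraMap E K z) ≤ 1 := (W.valuation_le_one_iff _).2 hzV
  rw [lt_iff (V := W.comap (algebraMap E K)) (W := W) rfl, map_div₀, map_div₀,
    div_lt_one₀ (zero_lt_iff.2 ((_root_.map_ne_zero _).2 hc₀'))] at hz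
  change (W.comap (algebraMap L K)).valuation _ < 1
  have hc'' : algebraMap L K c ≠ 0 := hc'
  rw [lt_iff (V := W.comap (algebraMap L K)) (W := W) rfl, map_div₀, map_div₀,
    div_lt_one₀ (zero_lt_iff.2 ((_root_.map_ne_zero _).2 hc''))]
  refine lt_of_lt_of_le ?_ hc₀c
  have h1 : algebraMap L K (g.eval ⟨algebraMap E K z, hEL z⟩) = algebraMap E K (g₀.eval z) +
      ∑ i ∈ Finset.range n, ((g.coeff i : K) - algebraMap E K (y i)) * algebraMap E K z ^ i := by
    conv_lhs => rw [hg.as_sum]
    rw [eval_add, eval_pow, eval_X, eval_finsetSum]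
    have h2 : g₀.eval z = z ^ n + ∑ i ∈ Finset.range n, y i * z ^ i := by
      change (X ^ n + q).eval z = _
      rw [eval_add, eval_pow, eval_X, eval_finsetSum]
      congr 1
      exact Finset.sum_congr rfl fun i _ => by rw [eval_mul, eval_C, eval_pow, eval_X]
    rw [h2, map_add, map_add, map_sum, map_sum, map_pow, map_pow, add_assoc,
      ← Finset.sum_add_distrib]
    congr 1
    refine Finset.sum_congr rfl fun i _ => ?_
    rw [eval_mul, eval_C, eval_pow, eval_X, map_mul, map_mul, map_pow, map_pow]
    change (g.coeff i : K) * algebraMap E K z ^ i = _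
    ring
  rw [h1]
  refine lt_of_le_of_lt (W.valuation.map_add _ _) (max_lt hz ?_)
  refine Valuation.map_sum_lt _ ((_root_.map_ne_zero _).2 hc₀') fun i _ => ?_
  rw [map_mul, map_pow]
  calc _ ≤ W.valuation ((g.coeff i : K) - algebraMap E K (y i)) * 1 :=
        mul_le_mul_right (pow_le_one₀ zero_le hzW) _
    _ < _ := by rw [mul_one]; exact hy i

/-- The step for transcendental elements. -/
theorem inv_trans {W : ValuationSubring K} {L : Subfield K} {R' : Subring K}
    (hA : Apx (W.comap L.subtype))
    (hcof : ∀ z : K, z ≠ 0 → ∃ c : L, c ≠ 0 ∧ W.valuation (c : K) ≤ W.valuation z) {t : K}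
    (ht : Transcendental L t) (h : Inv W R' L.subtype) :
    Inv W R' (L ⊔ Subfield.closure {t}).subtype := by
  have key : ∀ L' : Subfield K, (algebraMap L K).fieldRange = L' → Inv W R' L'.subtype →
      Inv W R' (L' ⊔ Subfield.closure {t}).subtype := by
    rintro L' rfl hI
    exact sub_trans W R' t (trans_range ht) (fun f => lin_det hA hcof ht f) hI
  exact key L L.fieldRange_subtype h

lemma coeff_prod_mem {M : Type u} [Field M] (W : ValuationSubring M) (s : Multiset M)
    (h : ∀ b ∈ s, b ∈ W) (k : ℕ) : ((s.map fun b => X - C b).prod).coeff k ∈ W := by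
  classical
  induction s using Multiset.induction_on generalizing k with
  | empty =>
    rw [Multiset.map_zero, Multiset.prod_zero, coeff_one]
    split_ifs
    exacts [one_mem _, zero_mem _]
  | cons b s ih =>
    have hb := h b (Multiset.mem_cons_self b s)
    have ih' := fun k => ih (fun r hr => h r (Multiset.mem_cons_of_mem hr)) k
    rw [Multiset.map_cons, Multiset.prod_cons, sub_mul, coeff_sub, coeff_C_mul]
    refine sub_mem ?_ (mul_mem hb (ih' k))
    rcases k with _ | k
    · rw [mul_coeff_zero, coeff_X_zero, zero_mul]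
      exact zero_mem _
    · rw [coeff_X_mul]
      exact ih' k

lemma exists_small {M : Type u} [Field M] [Algebra K M] [Algebra.IsAlgebraic K M]
    {W : ValuationSubring K} {W' : ValuationSubring M} (hW' : W'.comap (algebraMap K M) = W)
    (s : Finset M) (hs : ∀ m ∈ s, m ≠ 0) : ∃ d : K, d ≠ 0 ∧ ∀ m ∈ s,
      W'.valuation (algebraMap K M d) ≤ W'.valuation m := by
  classical
  induction s using Finset.induction_on with
  | empty => exact ⟨1, one_ne_zero, fun m hm => absurd hm (Finset.notMem_empty m)⟩
  | insert m s _ ih =>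
    obtain ⟨d₁, h1, h2⟩ := ih fun x hx => hs x (Finset.mem_insert_of_mem hx)
    have hm := hs m (Finset.mem_insert_self m s)
    obtain ⟨d₂, h3, h4⟩ := cofinal hW' (Algebra.IsIntegral.isIntegral (R := K) m⁻¹)
    rw [map_mul, map_inv₀, ← div_eq_mul_inv,
      div_le_one₀ (zero_lt_iff.2 ((_root_.map_ne_zero _).2 hm))] at h4
    rcases le_total (W'.valuation (algebraMap K M d₁)) (W'.valuation (algebraMap K M d₂)) with h | h
    · refine ⟨d₁, h1, fun x hx => ?_⟩
      rcases Finset.mem_insert.1 hx with rfl | hx
      · exact h.trans h4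
      · exact h2 x hx
    · refine ⟨d₂, h3, fun x hx => ?_⟩
      rcases Finset.mem_insert.1 hx with rfl | hx
      · exact h4
      · exact h.trans (h2 x hx)

/-- The step for separable elements. -/
theorem inv_sep {W : ValuationSubring K} {L : Subfield K} {R' : Subring K} {θ : K}
    (hd : ∀ c : K, c ≠ 0 → ∃ y : L, W.valuation (θ - y) < W.valuation c)
    (hθ : IsSeparable L θ) (h : Inv W R' L.subtype) :
    Inv W R' (L ⊔ Subfield.closure {θ}).subtype := by
  classical
  by_cases hθL : θ ∈ L
  · have h1 : L ⊔ Subfield.closure {θ} = L :=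
      sup_eq_left.2 (Subfield.closure_le.2 (Set.singleton_subset_iff.2 hθL))
    rw [h1]
    exact h
  obtain ⟨W', hW'⟩ := exists_over W (AlgebraicClosure K)
  obtain ⟨M, hM⟩ : ∃ M, M = AlgebraicClosure K := ⟨_, rfl⟩
  let θ' : AlgebraicClosure K := algebraMap K _ θ
  let P := minpoly L θ
  -- the conjugates of `θ`
  let s : Finset (AlgebraicClosure K) :=
    ((P.map (algebraMap L (AlgebraicClosure K))).roots.toFinset.erase θ').image fun r => r - θ'
  obtain ⟨d, hd0, hds⟩ := exists_small hW' s (by
    intro m hm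
    obtain ⟨r, hr, rfl⟩ := Finset.mem_image.1 hm
    exact sub_ne_zero.2 (Finset.ne_of_mem_erase hr))
  obtain ⟨a, ha⟩ := hd d hd0
  set w : K := θ - a with hw
  have hw0 : w ≠ 0 := by
    intro h0
    apply hθL
    rw [sub_eq_zero.1 h0]
    exact a.2
  obtain ⟨a', ha'⟩ := hd w hw0
  set c : L := a' - a with hc
  have hcw : W.valuation (w - c) < W.valuation w := by
    have h1 : w - (c : K) = θ - a' := by
      rw [hw, hc]
      push_cast
      ring
    rw [h1]
    exact ha'
  have hcv : W.valuation (c : K) = W.valuation w := val_eq hcw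
  have hc0 : (c : K) ≠ 0 := by
    intro h0
    rw [h0, map_zero] at hcv
    exact hw0 ((map_eq_zero _).1 hcv.symm)
  set ζ : K := c / w with hζ
  have hζ0 : ζ ≠ 0 := div_ne_zero hc0 hw0
  have hζs : IsSeparable L ζ := by
    rw [hζ, div_eq_mul_inv]
    exact Field.isSeparable_mul (isSeparable_algebraMap (F := L) c)
      (Field.isSeparable_inv (Field.isSeparable_sub hθ (isSeparable_algebraMap (F := L) a)))
  have hζi : IsIntegral L ζ := hζs.isIntegral
  let F := minpoly L ζ
  have hFm : F.Monic := minpoly.monic hζi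
  let ζ' : AlgebraicClosure K := algebraMap K _ ζ
  have hζ'v : W'.valuation ζ' = 1 := by
    have h1 : W.valuation ζ = 1 := by
      rw [hζ, map_div₀, hcv, div_self ((_root_.map_ne_zero _).2 hw0)]
    apply le_antisymm
    · have h2 := (le_iff_le hW' ζ 1).1 (by rw [h1, map_one])
      rwa [map_one, map_one] at h2
    · have h2 := (le_iff_le hW' 1 ζ).1 (by rw [h1, map_one])
      rwa [map_one, map_one] at h2
  -- `θ` is in `L(ζ)`
  have hθζ : θ = a + c / ζ := by
    rw [hζ, div_div_cancel₀ hc0, hw]
    ring
  have hθF : θ ∈ IntermediateField.adjoin L {ζ} := by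
    rw [hθζ]
    refine add_mem (IntermediateField.algebraMap_mem _ a) (div_mem
      (IntermediateField.algebraMap_mem _ c) (IntermediateField.subset_adjoin L _ rfl))
  have hroot : ∀ r ∈ (F.map (algebraMap L (AlgebraicClosure K))).roots, r ≠ ζ' →
      W'.valuation r < 1 := by
    intro r hr hrζ
    have hr' : r ∈ (minpoly L ζ).aroots (AlgebraicClosure K) := hr
    let σ : IntermediateField.adjoin L {ζ} →ₐ[L] AlgebraicClosure K :=
      (IntermediateField.algHomAdjoinIntegralEquiv L hζi).symm ⟨r, hr'⟩
    have hσ : σ (IntermediateField.AdjoinSimple.gen L ζ) = r :=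
      IntermediateField.algHomAdjoinIntegralEquiv_symm_apply_gen L hζi ⟨r, hr'⟩
    have hθg : (⟨θ, hθF⟩ : IntermediateField.adjoin L {ζ}) =
        algebraMap L _ a + algebraMap L _ c / IntermediateField.AdjoinSimple.gen L ζ :=
      Subtype.ext hθζ
    have hr0 : r ≠ 0 := by
      rw [← hσ, _root_.map_ne_zero]
      intro h0
      exact hζ0 (congrArg Subtype.val h0)
    set r' := σ ⟨θ, hθF⟩ with hr'd
    have hr'e : r' = algebraMap K _ (a : K) + algebraMap K _ (c : K) / r := by
      rw [hr'd, hθg, map_add, map_div₀, hσ, AlgHom.commutes, AlgHom.commutes]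
      rfl
    have hr'P : r' ∈ (P.map (algebraMap L (AlgebraicClosure K))).roots := by
      rw [mem_roots ((minpoly.monic hθ.isIntegral).map _).ne_zero, IsRoot.def, eval_map]
      have h1 : aeval r' P = σ (aeval (⟨θ, hθF⟩ : IntermediateField.adjoin L {ζ}) P) := by
        rw [hr'd]
        exact aeval_algHom_apply σ _ P
      have h2 : aeval (⟨θ, hθF⟩ : IntermediateField.adjoin L {ζ}) P = 0 := by
        apply Subtype.ext
        have h3 : aeval θ P = 0 := minpoly.aeval L θ
        have h4 := aeval_algHom_apply (IntermediateField.adjoin L {ζ}).val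
          (⟨θ, hθF⟩ : IntermediateField.adjoin L {ζ}) P
        exact h4.symm.trans h3
      rw [h2, map_zero] at h1
      exact h1
    have hcr : algebraMap K (AlgebraicClosure K) (c : K) / r = (r' - θ') + algebraMap K _ w := by
      have h1 : algebraMap K (AlgebraicClosure K) w = θ' - algebraMap K _ (a : K) := map_sub _ _ _
      rw [h1, hr'e]
      ring
    have hr'θ : r' ≠ θ' := by
      intro h0
      apply hrζ
      rw [h0, sub_self, zero_add, div_eq_iff hr0] at hcr
      change r = algebraMap K _ (c / w)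
      rw [map_div₀, hcr, mul_div_cancel_left₀]
      exact (_root_.map_ne_zero _).2 hw0
    have h1 : W'.valuation (algebraMap K (AlgebraicClosure K) w) < W'.valuation (r' - θ') := by
      refine lt_of_lt_of_le ?_ (hds (r' - θ') (Finset.mem_image.2 ⟨r', Finset.mem_erase.2
        ⟨hr'θ, Multiset.mem_toFinset.2 hr'P⟩, rfl⟩))
      have h2 := (le_iff_le hW' d w).not
      rw [not_le, not_le] at h2
      exact h2.1 ha
    have h2 : W'.valuation (algebraMap K (AlgebraicClosure K) (c : K) / r) =
        W'.valuation (r' - θ') := by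
      rw [hcr]
      exact Valuation.map_add_eq_of_lt_left _ h1
    have h3 : W'.valuation (algebraMap K (AlgebraicClosure K) (c : K)) =
        W'.valuation (algebraMap K (AlgebraicClosure K) w) := by
      apply le_antisymm
      · exact (le_iff_le hW' _ _).1 hcv.le
      · exact (le_iff_le hW' _ _).1 hcv.ge
    rw [map_div₀, h3] at h2
    have hrv : 0 < W'.valuation r := zero_lt_iff.2 ((_root_.map_ne_zero _).2 hr0)
    have hwv : 0 < W'.valuation (algebraMap K (AlgebraicClosure K) w) :=
      zero_lt_iff.2 ((_root_.map_ne_zero _).2 ((_root_.map_ne_zero _).2 hw0))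
    rw [← h2, lt_div_iff₀ hrv] at h1
    by_contra h4
    push Not at h4
    have h5 : W'.valuation (algebraMap K (AlgebraicClosure K) w) ≤
        W'.valuation (algebraMap K (AlgebraicClosure K) w) * W'.valuation r :=
      le_mul_of_one_le_right' h4
    exact absurd h1 (not_lt.2 h5)
  have hsp : (F.map (algebraMap L (AlgebraicClosure K))).Splits := IsAlgClosed.splits _
  have hFm' : (F.map (algebraMap L (AlgebraicClosure K))).Monic := hFm.map _
  have hrint : ∀ r ∈ (F.map (algebraMap L (AlgebraicClosure K))).roots, r ∈ W' := by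
    intro r hr
    rw [← W'.valuation_le_one_iff]
    by_cases hrζ : r = ζ'
    · rw [hrζ, hζ'v]
    · exact (hroot r hr hrζ).le
  have hFW : ∀ i, (F.coeff i : K) ∈ W := by
    intro i
    have h1 := coeff_prod_mem W' (F.map (algebraMap L (AlgebraicClosure K))).roots hrint i
    rw [← hsp.eq_prod_roots_of_monic hFm', coeff_map] at h1
    rw [← hW']
    exact h1
  have hζF : ζ' ∈ (F.map (algebraMap L (AlgebraicClosure K))).roots := by
    rw [mem_roots hFm'.ne_zero, IsRoot.def, eval_map]
    have h1 : aeval ζ F = 0 := minpoly.aeval L ζ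
    have h2 := congrArg (algebraMap K (AlgebraicClosure K)) h1
    rw [map_zero, aeval_def, hom_eval₂] at h2
    exact h2
  have hder : W.valuation (eval₂ ((algebraMap K K).comp L.subtype) ζ (derivative F)) = 1 := by
    have h1 : algebraMap K (AlgebraicClosure K)
        (eval₂ ((algebraMap K K).comp L.subtype) ζ (derivative F)) =
          eval ζ' (derivative (F.map (algebraMap L (AlgebraicClosure K)))) := by
      rw [hom_eval₂, derivative_map, eval_map]
      rfl
    rw [hsp.eval_root_derivative hFm' hζF] at h1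
    have hnd : (F.map (algebraMap L (AlgebraicClosure K))).roots.Nodup :=
      nodup_roots (Separable.map hζs)
    have h2 : W'.valuation (algebraMap K (AlgebraicClosure K)
        (eval₂ ((algebraMap K K).comp L.subtype) ζ (derivative F))) = 1 := by
      rw [h1, map_multiset_prod, Multiset.map_map]
      apply Multiset.prod_eq_one
      intro x hx
      obtain ⟨r, hr, rfl⟩ := Multiset.mem_map.1 hx
      obtain ⟨hrζ, hr⟩ := (hnd.mem_erase_iff).1 hr
      have h3 := hroot r hr hrζ
      rw [← hζ'v] at h3
      change W'.valuation (ζ' - r) = 1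
      rw [Valuation.map_sub_eq_of_lt_left _ h3, hζ'v]
    apply le_antisymm
    · have h3 := (le_iff_le hW' (eval₂ ((algebraMap K K).comp L.subtype) ζ (derivative F)) 1).2
        (by rw [h2, map_one, map_one])
      rwa [map_one] at h3
    · have h3 := (le_iff_le hW' 1 (eval₂ ((algebraMap K K).comp L.subtype) ζ (derivative F))).2
        (by rw [h2, map_one, map_one])
      rwa [map_one] at h3
  refine sub_nd W R' le_sup_left ⟨K, inferInstance, inferInstance, W, ζ, F, 1, fun _ => 1,
    rfl, hFm, hFW, minpoly.aeval L ζ, hder, fun _ => ⟨one_mem _, one_ne_zero⟩, ?_, ?_⟩ h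
  · intro z hz
    have h1 : L ⊔ Subfield.closure {θ} ≤ (IntermediateField.adjoin L {ζ}).toSubfield := by
      refine sup_le ?_ (Subfield.closure_le.2 (Set.singleton_subset_iff.2 hθF))
      intro x hx
      exact IntermediateField.algebraMap_mem (IntermediateField.adjoin L {ζ}) (⟨x, hx⟩ : L)
    have h2 : z ∈ (IntermediateField.adjoin L {ζ}).toSubalgebra := h1 hz
    rw [IntermediateField.adjoin_simple_toSubalgebra_of_isAlgebraic hζi.isAlgebraic,
      Algebra.adjoin_singleton_eq_range_aeval] at h2
    obtain ⟨q, hq⟩ := h2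
    refine ⟨fun _ => q, ?_⟩
    rw [Fin.sum_univ_one, map_one, mul_one, ← hq]
    rfl
  · intro p i
    rw [Fin.sum_univ_one, Subsingleton.elim i 0]

end Pool.Agent.V7H82.ZT
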