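import Pool.Agent.V7H82.ZT.Sep

/-!
# Towers of transcendental and separable elements in which the ground field is dense
-/

set_option autoImplicit false

universe u v

namespace Pool.Agent.V7H82.ZT

open IsLocalRing Polynomial Pool.Agent.W418.LU2 Pool.Agent.TH188.QS Pool.Agent.V7H82.ZR
  Pool.Agent.V7H82.ZS Pool.Agent.H176.DT Pool.Agent.R187.CT

/-- The subfields of `K` obtained from `E` by adjoining finitely many elements, one after the other,
each of them transcendental or separable over the preceding field. -/
inductive SepTower (E : Type u) [Field E] {K : Type u} [Field K] [Algebra E K] :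
    Subfield K → Prop
  | base : SepTower E (algebraMap E K).fieldRange
  | trans (L : Subfield K) (t : K) : SepTower E L → Transcendental L t →
      SepTower E (L ⊔ Subfield.closure {t})
  | sep (L : Subfield K) (t : K) : SepTower E L → IsSeparable L t →
      SepTower E (L ⊔ Subfield.closure {t})

variable {E : Type u} [Field E] {K : Type u} [Field K] [Algebra E K]

lemma SepTower.mem {L : Subfield K} (h : SepTower E L) (e : E) : algebraMap E K e ∈ L := by
  induction h with
  | base => exact ⟨e, rfl⟩
  | trans L t _ _ ih => exact (le_sup_left : L ≤ _) ih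
  | sep L t _ _ ih => exact (le_sup_left : L ≤ _) ih

lemma alg_of_join {L : Subfield K} {t : K} (hK : L ⊔ Subfield.closure {t} = ⊤)
    (ht : IsAlgebraic L t) : Algebra.IsAlgebraic L K := by
  have h1 : Algebra.IsAlgebraic L (IntermediateField.adjoin L {t}) :=
    IntermediateField.isAlgebraic_adjoin_simple ht.isIntegral
  have h2 : ∀ x : K, x ∈ IntermediateField.adjoin L {t} := by
    have h3 : L ⊔ Subfield.closure {t} ≤ (IntermediateField.adjoin L {t}).toSubfield := by
      refine sup_le (fun x hx => ?_) (Subfield.closure_le.2 (Set.singleton_subset_iff.2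
        (IntermediateField.subset_adjoin L _ rfl)))
      exact (IntermediateField.adjoin L {t}).algebraMap_mem ⟨x, hx⟩
    intro x
    exact h3 (by rw [hK]; trivial)
  exact ⟨fun x => by
    have h3 := h1.isAlgebraic (⟨x, h2 x⟩ : IntermediateField.adjoin L {t})
    exact (isAlgebraic_algebraMap_iff
      (algebraMap (IntermediateField.adjoin L {t}) K).injective).2 h3⟩

/-- Valuations for which the ground field is dense in a subfield over which the field is generated by
one element, transcendental or separable. -/
theorem good_tow {R : Type u} [CommRing R] (hR : HJ R) {ρ : R →+* E} (W : ValuationSubring K)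
    (hρ : ∀ a, algebraMap E K (ρ a) ∈ W) (hEf : ∃ S : Set E, S.Finite ∧ ∀ z, Fr (R187.CT.rg ρ S) z)
    (hV : Good ρ (W.comap (algebraMap E K))) (hA : Apx (W.comap (algebraMap E K)))
    {L : Subfield K} (hL : SepTower E L) (hd : Dns E W L)
    (hcof : ∀ z : K, z ≠ 0 → ∃ c : E, c ≠ 0 ∧ W.valuation (algebraMap E K c) ≤ W.valuation z)
    {t : K} (ht : IsSeparable L t ∨ Transcendental L t) (hK : L ⊔ Subfield.closure {t} = ⊤) :
    Good ((algebraMap E K).comp ρ) W := by
  have hcof' : ∀ L : Subfield K, SepTower E L → ∀ z : K, z ≠ 0 → ∃ c : L, c ≠ 0 ∧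
      W.valuation (c : K) ≤ W.valuation z := by
    intro L hL z hz
    obtain ⟨c, h1, h2⟩ := hcof z hz
    exact ⟨⟨algebraMap E K c, hL.mem c⟩, fun h =>
      h1 ((map_eq_zero (algebraMap E K)).1 (congrArg Subtype.val h)), h2⟩
  refine good_tower hR ρ W hρ hEf hV fun R' hI => ?_
  have main : ∀ L : Subfield K, SepTower E L → Dns E W L → Inv W R' L.subtype := by
    intro L hL
    induction hL with
    | base => exact fun _ => hI
    | trans L t hL ht ih =>
      intro hd
      have hdL : Dns E W L := fun θ hθ => hd θ ((le_sup_left : L ≤ _) hθ)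
      exact inv_trans (apx_up hA hL.mem hdL) (hcof' L hL) ht (ih hdL)
    | sep L t hL ht ih =>
      intro hd
      have hdL : Dns E W L := fun θ hθ => hd θ ((le_sup_left : L ≤ _) hθ)
      refine inv_sep (fun c hc => ?_) ht (ih hdL)
      have htm : t ∈ L ⊔ Subfield.closure {t} :=
        (le_sup_right : Subfield.closure {t} ≤ _) (Subfield.subset_closure rfl)
      obtain ⟨y, hy⟩ := hd t htm c hc
      exact ⟨⟨algebraMap E K y, hL.mem y⟩, hy⟩
  have h1 := main L hL hd
  have hAL := apx_up hA hL.mem hd
  have h2 : Inv W R' (L ⊔ Subfield.closure {t}).subtype := by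
    rcases ht with ht | ht
    · have halg := alg_of_join hK ht.isIntegral.isAlgebraic
      exact inv_sep (fun c hc => hAL.dense (W := W) rfl t c hc) ht h1
    · exact inv_trans hAL (hcof' L hL) ht h1
  rw [hK] at h2
  exact h2

/-- Finitely generated extensions of fields of characteristic zero. -/
theorem septower_zero [CharZero E] {S : Set K} (hS : S.Finite) :
    SepTower E ((algebraMap E K).fieldRange ⊔ Subfield.closure S) := by
  induction S, hS using Set.Finite.induction_on with
  | empty =>
    rw [Subfield.closure_empty, sup_bot_eq]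
    exact SepTower.base
  | @insert a S _ _ ih =>
    have h1 : (algebraMap E K).fieldRange ⊔ Subfield.closure (insert a S) =
        ((algebraMap E K).fieldRange ⊔ Subfield.closure S) ⊔ Subfield.closure {a} := by
      rw [Set.insert_eq, Set.union_comm, Subfield.closure_union, sup_assoc]
    rw [h1]
    by_cases ha : IsAlgebraic ((algebraMap E K).fieldRange ⊔ Subfield.closure S : Subfield K) a
    · refine SepTower.sep _ _ ih ?_
      have hc : CharZero K := charZero_of_injective_algebraMap (algebraMap E K).injective
      have hcL : CharZero ((algebraMap E K).fieldRange ⊔ Subfield.closure S : Subfield K) :=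
        ((algebraMap E K).fieldRange ⊔ Subfield.closure S : Subfield K).subtype.charZero
      exact (minpoly.irreducible ha.isIntegral).separable
    · exact SepTower.trans _ _ ih ha

/-- Algebraic extensions of extensions in which the ground field is dense. -/
theorem dns_alg {W : ValuationSubring K} (hA : Apx W) (hd : Dns E W ⊤) {F : Type u} [Field F]
    [Algebra K F] [Algebra E F] [IsScalarTower E K F] [Algebra.IsAlgebraic K F]
    {V' : ValuationSubring F} (hV' : V'.comap (algebraMap K F) = W) : Dns E V' ⊤ := by
  intro θ _ c hc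
  obtain ⟨y₁, h1⟩ := hA.dense hV' θ c hc
  obtain ⟨d, hd0, hdc⟩ := exists_small hV' {c} (fun m hm => by
    rw [Finset.mem_singleton.1 hm]; exact hc)
  have h2 := hdc c (Finset.mem_singleton_self c)
  obtain ⟨y₂, h3⟩ := hd y₁ trivial d hd0
  refine ⟨y₂, ?_⟩
  have h4 : V'.valuation (algebraMap K F (y₁ - algebraMap E K y₂)) <
      V'.valuation (algebraMap K F d) := by
    rw [← not_le, ← le_iff_le hV', not_le]
    exact h3
  have h5 : θ - algebraMap E F y₂ = (θ - algebraMap K F y₁) +
      algebraMap K F (y₁ - algebraMap E K y₂) := by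
    rw [map_sub, ← IsScalarTower.algebraMap_apply]
    ring
  rw [h5]
  exact Valuation.map_add_lt _ h1 (h4.trans_le h2)

/-- If the ground field is dense. -/
theorem apx_top {W : ValuationSubring K} (hE : Apx (W.comap (algebraMap E K)))
    (hd : Dns E W ⊤) : Apx W := by
  have h1 : Apx (W.comap (⊤ : Subfield K).subtype) := apx_up hE (fun _ => trivial) hd
  intro g hg hg1 hgV c hc
  let e : K ≃+* (⊤ : Subfield K) := (Subfield.topEquiv (K := K)).symm
  have he : ∀ x : K, ((e x : (⊤ : Subfield K)) : K) = x := fun _ => rfl
  obtain ⟨y, hyV, hy⟩ := h1 (g.map (e : K →+* (⊤ : Subfield K))) (hg.map _)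
    (by rw [hg.natDegree_map]; exact hg1) (fun i => by
      rw [coeff_map]
      exact hgV i) (e c) (fun h => hc (by
        have h2 := congrArg Subtype.val h
        exact h2))
  refine ⟨(y : K), hyV, ?_⟩
  have h2 := (lt_iff (W := W) (K := (⊤ : Subfield K)) (V := W.comap (⊤ : Subfield K).subtype)
    rfl _).1 hy
  have h3 : algebraMap (⊤ : Subfield K) K (eval y (g.map (e : K →+* (⊤ : Subfield K))) / e c) =
      g.eval (y : K) / c := by
    rw [map_div₀, eval_map, hom_eval₂]
    have h4 : (algebraMap (⊤ : Subfield K) K).comp (e : K →+* (⊤ : Subfield K)) =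
        RingHom.id K := RingHom.ext fun _ => rfl
    rw [h4, eval₂_id]
    rfl
  rw [h3] at h2
  exact h2

/-- Values of the ground field. -/
lemma cof_of_dns {W : ValuationSubring K} (hd : Dns E W ⊤) (z : K) (hz : z ≠ 0) :
    ∃ c : E, c ≠ 0 ∧ W.valuation (algebraMap E K c) ≤ W.valuation z := by
  obtain ⟨y, hy⟩ := hd z trivial z hz
  have h1 := val_eq hy
  refine ⟨y, ?_, h1.le⟩
  rintro rfl
  rw [map_zero, map_zero] at h1
  exact hz ((map_eq_zero _).1 h1.symm)

/-- Finitely generated extensions in characteristic zero in which the ground field is dense. -/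
theorem good_zero [CharZero E] {R : Type u} [CommRing R] (hR : HJ R) {ρ : R →+* E}
    (W : ValuationSubring K) (hρ : ∀ a, algebraMap E K (ρ a) ∈ W)
    (hEf : ∃ S : Set E, S.Finite ∧ ∀ z, Fr (R187.CT.rg ρ S) z)
    (hV : Good ρ (W.comap (algebraMap E K))) (hA : Apx (W.comap (algebraMap E K)))
    {S : Set K} (hS : S.Finite) (hK : (algebraMap E K).fieldRange ⊔ Subfield.closure S = ⊤)
    (hd : Dns E W ⊤) : Good ((algebraMap E K).comp ρ) W := by
  have h1 : SepTower E (⊤ : Subfield K) := by
    rw [← hK]
    exact septower_zero hS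
  refine good_tow hR W hρ hEf hV hA h1 hd (cof_of_dns hd) (t := 1) (Or.inl ?_) (top_sup_eq _)
  have h2 := isSeparable_algebraMap (F := (⊤ : Subfield K)) (K := K) 1
  rwa [map_one] at h2

/-- Finite extensions of finitely generated extensions. -/
theorem gen_fin {T : Set K} (hT : T.Finite)
    (hK : (algebraMap E K).fieldRange ⊔ Subfield.closure T = ⊤) {F : Type u} [Field F]
    [Algebra K F] [Algebra E F] [IsScalarTower E K F] [FiniteDimensional K F] :
    ∃ S : Set F, S.Finite ∧ (algebraMap E F).fieldRange ⊔ Subfield.closure S = ⊤ := by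
  let b := Module.finBasis K F
  refine ⟨algebraMap K F '' T ∪ Set.range b, (hT.image _).union (Set.finite_range b), ?_⟩
  set G : Subfield F := (algebraMap E F).fieldRange ⊔
    Subfield.closure (algebraMap K F '' T ∪ Set.range b) with hG
  have h1 : ∀ z : K, algebraMap K F z ∈ G := by
    have h2 : (⊤ : Subfield K) ≤ G.comap (algebraMap K F) := by
      rw [← hK]
      refine sup_le ?_ ?_
      · rintro _ ⟨e, rfl⟩
        change algebraMap K F (algebraMap E K e) ∈ G
        rw [← IsScalarTower.algebraMap_apply]
        exact (le_sup_left : (algebraMap E F).fieldRange ≤ G) ⟨e, rfl⟩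
      · rw [Subfield.closure_le]
        intro t ht
        exact (le_sup_right : Subfield.closure (algebraMap K F '' T ∪ Set.range b) ≤ G)
          (Subfield.subset_closure (Or.inl ⟨t, ht, rfl⟩))
    exact fun z => h2 (x := z) trivial
  rw [eq_top_iff]
  intro x _
  rw [← b.sum_repr x]
  refine sum_mem fun i _ => ?_
  rw [Algebra.smul_def]
  exact mul_mem (h1 _) ((le_sup_right : Subfield.closure (algebraMap K F '' T ∪ Set.range b) ≤ G)
    (Subfield.subset_closure (Or.inr ⟨i, rfl⟩)))

lemma gen_of_fr {R : Type u} [CommRing R] {ρ : R →+* E} {T : Set K}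
    (h : ∀ z : K, Fr (R187.CT.rg ((algebraMap E K).comp ρ) T) z) :
    (algebraMap E K).fieldRange ⊔ Subfield.closure T = ⊤ := by
  rw [eq_top_iff]
  intro z _
  have h1 : R187.CT.rg ((algebraMap E K).comp ρ) T ≤
      ((algebraMap E K).fieldRange ⊔ Subfield.closure T).toSubring := by
    rw [R187.CT.rg, Subring.closure_le]
    rintro x (⟨a, rfl⟩ | hx)
    · exact (le_sup_left : (algebraMap E K).fieldRange ≤ (algebraMap E K).fieldRange ⊔
        Subfield.closure T) ⟨ρ a, rfl⟩
    · exact (le_sup_right : Subfield.closure T ≤ (algebraMap E K).fieldRange ⊔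
        Subfield.closure T) (Subfield.subset_closure hx)
  obtain ⟨a, ha, b, hb, -, rfl⟩ := h z
  exact mul_mem (h1 ha) (inv_mem (h1 hb))

end Pool.Agent.V7H82.ZT
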